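import Mathlib

/-!
Definitions for MP_d2274e (functions semiconvex and semiconcave with modulus).
-/

namespace Pool.Agent.R231.SC

open Set Filter Topology

/-- the class of moduli: non-decreasing functions `[0,∞) → [0,∞)` tending to `0` at `0+`
(only the values on `[0,∞)` matter). -/
def IsModulus (w : ℝ → ℝ) : Prop :=
  (∀ t, 0 ≤ t → 0 ≤ w t) ∧ MonotoneOn w (Ici 0) ∧ Tendsto w (𝓝[>] 0) (𝓝 0)

variable {E : Type*} [NormedAddCommGroup E] [NormedSpace ℝ E]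

/-- `f` is `w`-semiconvex on `G`. -/
def Semiconvex (G : Set E) (w : ℝ → ℝ) (f : E → ℝ) : Prop :=
  ContinuousOn f G ∧ ∀ x ∈ G, ∀ y ∈ G, ∀ l ∈ Icc (0 : ℝ) 1,
    f (l • x + (1 - l) • y) ≤
      l * f x + (1 - l) * f y + l * (1 - l) * ‖x - y‖ * w ‖x - y‖

/-- `f` is `w`-semiconcave on `G`. -/
def Semiconcave (G : Set E) (w : ℝ → ℝ) (f : E → ℝ) : Prop :=
  Semiconvex G w (fun x => - f x)

/-- `f` belongs to `C^{1,w}_*(G)`. -/
def InC1Star (G : Set E) (w : ℝ → ℝ) (f : E → ℝ) : Prop :=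
  ∃ f' : E → E →L[ℝ] ℝ, (∀ x ∈ G, HasFDerivAt f (f' x) x) ∧
    ∀ x ∈ G, ∀ y ∈ G, ‖f' x - f' y‖ ≤ w ‖x - y‖

/-- `f` belongs to `C^{1,w}(G)`. -/
def InC1 (G : Set E) (w : ℝ → ℝ) (f : E → ℝ) : Prop :=
  ∃ K : ℝ, 0 < K ∧ InC1Star G (fun t => K * w t) f

/-- `G` contains no translate of a convex cone with nonempty interior. -/
def ConeFree (G : Set E) : Prop :=
  ¬ ∃ (a : E) (C : Set E), (∀ x ∈ C, ∀ l : ℝ, 0 < l → l • x ∈ C) ∧ Convex ℝ C ∧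
    (interior C).Nonempty ∧ ∀ c ∈ C, a + c ∈ G

end Pool.Agent.R231.SC
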