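import Pool.Agent.R231.SC.Defs

namespace Pool.Agent.R231.SC

open Set Filter Topology

variable {E : Type*} [NormedAddCommGroup E] [NormedSpace ℝ E]

theorem two_sided {G : Set E} {w : ℝ → ℝ} {f : E → ℝ} (h1 : Semiconvex G w f)
    (h2 : Semiconcave G w f) :
    ∀ x ∈ G, ∀ y ∈ G, ∀ l ∈ Icc (0 : ℝ) 1,
    |f (l • x + (1 - l) • y) - (l * f x + (1 - l) * f y)| ≤ l * (1 - l) * ‖x - y‖ * w ‖x - y‖ := by
  intro x hx y hy l hl
  have a := h1.2 x hx y hy l hl
  have b := h2.2 x hx y hy l hl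
  rw [abs_le]
  constructor <;> linarith

/-- differentiability of functions that are both, with the remainder estimate -/
theorem diff_of_both [FiniteDimensional ℝ E] {G : Set E} (hG : IsOpen G)
    {w : ℝ → ℝ} (hw : IsModulus w) {f : E → ℝ}
    (H : ∀ x ∈ G, ∀ y ∈ G, ∀ l ∈ Icc (0 : ℝ) 1,
      |f (l • x + (1 - l) • y) - (l * f x + (1 - l) * f y)| ≤ l * (1 - l) * ‖x - y‖ * w ‖x - y‖)
    {x : E} (hx : x ∈ G) :
    ∃ L : E →L[ℝ] ℝ, HasFDerivAt f L x ∧ ∀ y ∈ G, |f y - f x - L (y - x)| ≤ ‖y - x‖ * w ‖y - x‖ := by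
  obtain ⟨hw0, hwm, hwt⟩ := hw
  -- difference quotients
  set q : E → ℝ → ℝ := fun v s => (f (x + s • v) - f x) / s with hq
  -- comparison of quotients
  have hcmp : ∀ v : E, ∀ s' s : ℝ, 0 < s' → s' ≤ s → x + s • v ∈ G →
      |q v s' - q v s| ≤ ‖v‖ * w (s * ‖v‖) := by
    intro v s' s hs' hss hmem
    have hs : 0 < s := by linarith
    have hl : s' / s ∈ Icc (0 : ℝ) 1 := ⟨by positivity, (div_le_one hs).2 hss⟩
    have h1 := H _ hmem _ hx (s' / s) hl
    have e1 : (s' / s) • (x + s • v) + (1 - s' / s) • x = x + s' • v := by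
      rw [smul_add, smul_smul, div_mul_cancel₀ _ hs.ne', sub_smul, one_smul]
      abel
    have e2 : ‖x + s • v - x‖ = s * ‖v‖ := by
      rw [add_sub_cancel_left, norm_smul, Real.norm_eq_abs, abs_of_pos hs]
    rw [e1, e2] at h1
    have e3 : q v s' - q v s = (f (x + s' • v) - (s' / s * f (x + s • v) + (1 - s' / s) * f x)) / s' := by
      rw [hq]; field_simp; ring
    rw [e3, abs_div, abs_of_pos hs', div_le_iff₀ hs']
    refine h1.trans ?_
    have hwn : 0 ≤ w (s * ‖v‖) := hw0 _ (by positivity)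
    calc s' / s * (1 - s' / s) * (s * ‖v‖) * w (s * ‖v‖)
        = (1 - s' / s) * (‖v‖ * w (s * ‖v‖) * s') := by field_simp
      _ ≤ 1 * (‖v‖ * w (s * ‖v‖) * s') := by
          gcongr
          linarith [hl.1]
      _ = _ := by ring
  -- small steps stay in G
  have hsmall : ∀ v : E, ∃ s0 : ℝ, 0 < s0 ∧ ∀ s, 0 < s → s ≤ s0 → x + s • v ∈ G := by
    intro v
    have hcont : ContinuousAt (fun s : ℝ => x + s • v) 0 := by fun_prop
    have hn : ∀ᶠ s : ℝ in 𝓝 0, x + s • v ∈ G := hcont (by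
      simpa using hG.mem_nhds hx)
    obtain ⟨δ, hδ, hδ2⟩ := Metric.eventually_nhds_iff.1 hn
    refine ⟨δ / 2, by positivity, fun s hs hs2 => hδ2 ?_⟩
    rw [Real.dist_eq, sub_zero, abs_of_pos hs]; linarith
  -- `w (s * c) → 0`
  have hwc : ∀ c : ℝ, 0 ≤ c → Tendsto (fun s => c * w (s * c)) (𝓝[>] 0) (𝓝 0) := by
    intro c hc0
    rcases hc0.eq_or_lt with h | h
    · rw [← h]; simp
    · have h1 : Tendsto (fun s : ℝ => s * c) (𝓝[>] 0) (𝓝[>] 0) := by
        refine tendsto_nhdsWithin_iff.2 ⟨?_, ?_⟩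
        · have : Tendsto (fun s : ℝ => s * c) (𝓝 0) (𝓝 (0 * c)) := by
            exact (continuous_id.mul continuous_const).tendsto 0
          rw [zero_mul] at this
          exact this.mono_left nhdsWithin_le_nhds
        · filter_upwards [self_mem_nhdsWithin] with s hs
          exact mul_pos hs h
      have := (hwt.comp h1).const_mul c
      simpa using this
  -- existence of the limits
  have hlim : ∀ v : E, ∃ a : ℝ, Tendsto (q v) (𝓝[>] 0) (𝓝 a) := by
    intro v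
    rw [← cauchy_map_iff_exists_tendsto, Metric.cauchy_iff]
    refine ⟨inferInstance, ?_⟩
    intro ε hε
    obtain ⟨s0, hs0, hs0G⟩ := hsmall v
    have h1 : ∀ᶠ s in 𝓝[>] (0 : ℝ), ‖v‖ * w (s * ‖v‖) < ε / 2 := by
      have := (hwc ‖v‖ (norm_nonneg v)).eventually (gt_mem_nhds (show (0:ℝ) < ε / 2 by positivity))
      exact this
    have h2 : ∀ᶠ s in 𝓝[>] (0 : ℝ), s ∈ Ioo 0 s0 := Ioo_mem_nhdsGT hs0
    obtain ⟨s, hs1, hs2⟩ := (h1.and h2).exists
    refine ⟨q v '' Ioo 0 s, image_mem_map (Ioo_mem_nhdsGT hs2.1), ?_⟩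
    rintro _ ⟨a, ha, rfl⟩ _ ⟨b, hb, rfl⟩
    have hsG := hs0G s hs2.1 hs2.2.le
    have h3 := hcmp v a s ha.1 ha.2.le hsG
    have h4 := hcmp v b s hb.1 hb.2.le hsG
    rw [Real.dist_eq]
    calc |q v a - q v b| = |(q v a - q v s) - (q v b - q v s)| := by ring_nf
      _ ≤ |q v a - q v s| + |q v b - q v s| := abs_sub _ _
      _ < ε := by linarith
  choose L0 hL0 using hlim
  -- estimate
  have hest : ∀ v : E, ∀ s, 0 < s → x + s • v ∈ G → |L0 v - q v s| ≤ ‖v‖ * w (s * ‖v‖) := by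
    intro v s hs hmem
    have h1 : Tendsto (fun s' => |q v s' - q v s|) (𝓝[>] 0) (𝓝 |L0 v - q v s|) :=
      ((hL0 v).sub tendsto_const_nhds).abs
    refine le_of_tendsto h1 ?_
    have h2 : ∀ᶠ s' in 𝓝[>] (0 : ℝ), s' ∈ Ioo 0 s := Ioo_mem_nhdsGT hs
    filter_upwards [h2] with s' hs'
    exact hcmp v s' s hs'.1 hs'.2.le hmem
  -- scaling
  have hmulT : ∀ c : ℝ, 0 < c → Tendsto (fun s : ℝ => c * s) (𝓝[>] 0) (𝓝[>] 0) := by
    intro c hc0
    refine tendsto_nhdsWithin_iff.2 ⟨?_, ?_⟩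
    · have : Tendsto (fun s : ℝ => c * s) (𝓝 0) (𝓝 (c * 0)) :=
        (continuous_const.mul continuous_id).tendsto 0
      rw [mul_zero] at this
      exact this.mono_left nhdsWithin_le_nhds
    · filter_upwards [self_mem_nhdsWithin] with s hs
      exact mul_pos hc0 hs
  have hpos : ∀ c : ℝ, 0 < c → ∀ v, L0 (c • v) = c * L0 v := by
    intro c hc0 v
    have h1 : Tendsto (fun s => c * q v (c * s)) (𝓝[>] 0) (𝓝 (c * L0 v)) :=
      ((hL0 v).comp (hmulT c hc0)).const_mul c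
    refine tendsto_nhds_unique ((hL0 (c • v)).congr' ?_) h1
    filter_upwards [self_mem_nhdsWithin] with s hs
    have hs0 : (0 : ℝ) < s := hs
    rw [hq]
    simp only
    rw [smul_smul, mul_comm s c]
    field_simp
  have hzero : L0 0 = 0 := by
    have h1 : Tendsto (fun _ : ℝ => (0 : ℝ)) (𝓝[>] 0) (𝓝 0) := tendsto_const_nhds
    refine tendsto_nhds_unique ((hL0 0).congr' ?_) h1
    filter_upwards with s
    rw [hq]; simp
  have hadd : ∀ v u : E, L0 (v + u) = L0 v + L0 u := by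
    intro v u
    have h1 : Tendsto (fun s => q (v + u) s - (q v (2 * s) + q u (2 * s))) (𝓝[>] 0)
        (𝓝 (L0 (v + u) - (L0 v + L0 u))) :=
      (hL0 _).sub (((hL0 v).comp (hmulT 2 two_pos)).add ((hL0 u).comp (hmulT 2 two_pos)))
    have h2 : Tendsto (fun s => q (v + u) s - (q v (2 * s) + q u (2 * s))) (𝓝[>] 0) (𝓝 0) := by
      obtain ⟨sv, hsv, hsvG⟩ := hsmall v
      obtain ⟨su, hsu, hsuG⟩ := hsmall u
      have h3 : Tendsto (fun s => ‖v - u‖ * w ((2 * s) * ‖v - u‖)) (𝓝[>] 0) (𝓝 0) :=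
        (hwc ‖v - u‖ (norm_nonneg _)).comp (hmulT 2 two_pos)
      refine squeeze_zero_norm' ?_ h3
      have h4 : ∀ᶠ s in 𝓝[>] (0 : ℝ), s ∈ Ioo 0 (sv / 2) := Ioo_mem_nhdsGT (by positivity)
      have h5 : ∀ᶠ s in 𝓝[>] (0 : ℝ), s ∈ Ioo 0 (su / 2) := Ioo_mem_nhdsGT (by positivity)
      filter_upwards [h4, h5] with s hs1 hs2
      have hs : 0 < s := hs1.1
      have m1 := hsvG (2 * s) (by positivity) (by linarith [hs1.2])
      have m2 := hsuG (2 * s) (by positivity) (by linarith [hs2.2])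
      have h6 := H _ m1 _ m2 (1 / 2) ⟨by norm_num, by norm_num⟩
      have e1 : (1 / 2 : ℝ) • (x + (2 * s) • v) + (1 - 1 / 2 : ℝ) • (x + (2 * s) • u) =
          x + s • (v + u) := by module
      have e2 : ‖x + (2 * s) • v - (x + (2 * s) • u)‖ = 2 * s * ‖v - u‖ := by
        have : x + (2 * s) • v - (x + (2 * s) • u) = (2 * s) • (v - u) := by module
        rw [this, norm_smul, Real.norm_eq_abs, abs_of_pos (by positivity)]
      rw [e1, e2] at h6
      have e3 : q (v + u) s - (q v (2 * s) + q u (2 * s)) =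
          (f (x + s • (v + u)) - (1 / 2 * f (x + (2 * s) • v) + (1 - 1 / 2) * f (x + (2 * s) • u))) / s := by
        rw [hq]; field_simp; ring
      rw [e3, Real.norm_eq_abs, abs_div, abs_of_pos hs, div_le_iff₀ hs]
      have hwn : 0 ≤ w (2 * s * ‖v - u‖) := hw0 _ (by positivity)
      have hnn : 0 ≤ ‖v - u‖ * w (2 * s * ‖v - u‖) * s := by positivity
      calc _ ≤ _ := h6
        _ = 1 / 2 * (‖v - u‖ * w (2 * s * ‖v - u‖) * s) := by ring
        _ ≤ _ := by linarith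
    have := tendsto_nhds_unique h1 h2
    linarith
  have hneg : ∀ v, L0 (-v) = - L0 v := by
    intro v
    have := hadd v (-v)
    rw [add_neg_cancel, hzero] at this
    linarith
  have hsmul : ∀ (c : ℝ) (v : E), L0 (c • v) = c * L0 v := by
    intro c v
    rcases lt_trichotomy c 0 with h | h | h
    · have h1 := hpos (-c) (by linarith) v
      have h2 := hneg (c • v)
      rw [← neg_smul, h1] at h2
      linarith
    · rw [h, zero_smul, hzero, zero_mul]
    · exact hpos c h v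
  let L1 : E →ₗ[ℝ] ℝ := { toFun := L0, map_add' := hadd, map_smul' := hsmul }
  let L : E →L[ℝ] ℝ := LinearMap.toContinuousLinearMap L1
  have hLv : ∀ v, L v = L0 v := fun v => rfl
  have hrem : ∀ y ∈ G, |f y - f x - L (y - x)| ≤ ‖y - x‖ * w ‖y - x‖ := by
    intro y hy
    have h1 := hest (y - x) 1 one_pos (by simpa using hy)
    rw [hLv]
    rw [hq] at h1
    simp only [one_smul, add_sub_cancel, div_one, one_mul] at h1
    rw [abs_sub_comm]
    exact h1
  refine ⟨L, ?_, hrem⟩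
  rw [hasFDerivAt_iff_isLittleO, Asymptotics.isLittleO_iff]
  intro c hc0
  have h1 : ∀ᶠ t in 𝓝[>] (0 : ℝ), w t < c := hwt.eventually (gt_mem_nhds hc0)
  obtain ⟨δ, hδ, hδ2⟩ := (nhdsGT_basis (0 : ℝ)).eventually_iff.1 h1
  filter_upwards [hG.mem_nhds hx, Metric.ball_mem_nhds x hδ] with y hy hyb
  rcases eq_or_ne y x with rfl | hne
  · simp
  · have hpos' : 0 < ‖y - x‖ := norm_pos_iff.2 (sub_ne_zero.2 hne)
    rw [Metric.mem_ball, dist_eq_norm] at hyb
    have h2 := hδ2 ⟨hpos', hyb⟩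
    have h3 := hrem y hy
    rw [Real.norm_eq_abs]
    refine h3.trans ?_
    rw [mul_comm]
    exact mul_le_mul_of_nonneg_right h2.le (norm_nonneg _)

end Pool.Agent.R231.SC
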