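import Pool.Agent.R231.SC.Diff

namespace Pool.Agent.R231.SC

open Set Filter Topology

/-! ### the modulus `w t = t / (1 + log (1+t))` -/

noncomputable def ll (t : ℝ) : ℝ := 1 + Real.log (1 + t)
noncomputable def ww (t : ℝ) : ℝ := t / ll t

lemma ll_ge {t : ℝ} (ht : 0 ≤ t) : 1 ≤ ll t := by
  unfold ll
  have := Real.log_nonneg (show (1 : ℝ) ≤ 1 + t by linarith)
  linarith

lemma ll_pos {t : ℝ} (ht : 0 ≤ t) : 0 < ll t := by linarith [ll_ge ht]

lemma ww_nonneg {t : ℝ} (ht : 0 ≤ t) : 0 ≤ ww t := div_nonneg ht (ll_pos ht).le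

lemma ll_mono {s t : ℝ} (hs : 0 ≤ s) (hst : s ≤ t) : ll s ≤ ll t := by
  unfold ll
  have := Real.log_le_log (show (0 : ℝ) < 1 + s by linarith) (show 1 + s ≤ 1 + t by linarith)
  linarith

lemma ww_mono : MonotoneOn ww (Ici 0) := by
  intro s hs t ht hst
  have hs0 : (0 : ℝ) ≤ s := hs
  have ht0 : (0 : ℝ) ≤ t := ht
  unfold ww
  rw [div_le_div_iff₀ (ll_pos hs0) (ll_pos ht0)]
  unfold ll
  have h1 : Real.log (1 + t) - Real.log (1 + s) ≤ (t - s) / (1 + s) := by
    rw [← Real.log_div (by linarith) (by linarith)]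
    have := Real.log_le_sub_one_of_pos (show 0 < (1 + t) / (1 + s) by positivity)
    have e : (1 + t) / (1 + s) - 1 = (t - s) / (1 + s) := by field_simp; ring
    linarith
  have h2 : s * ((t - s) / (1 + s)) ≤ t - s := by
    rw [← mul_div_assoc, div_le_iff₀ (by linarith)]
    nlinarith
  have h3 : 0 ≤ Real.log (1 + s) := Real.log_nonneg (by linarith)
  nlinarith [mul_le_mul_of_nonneg_left h1 hs0, mul_nonneg (sub_nonneg.2 hst) h3]

lemma ww_sub {k t : ℝ} (hk : 1 ≤ k) (ht : 0 ≤ t) : ww (k * t) ≤ k * ww t := by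
  unfold ww
  rw [← mul_div_assoc]
  exact div_le_div_of_nonneg_left (by positivity) (ll_pos ht) (ll_mono ht (by nlinarith))

lemma ww_chain {k s : ℝ} (hk : 0 ≤ k) (hks : k ≤ s) : k * ww s ≤ 2 * ww (k * s) := by
  have hs : 0 ≤ s := hk.trans hks
  unfold ww
  rw [← mul_div_assoc, ← mul_div_assoc]
  rw [div_le_div_iff₀ (ll_pos hs) (ll_pos (by positivity))]
  have h1 : ll (k * s) ≤ 2 * ll s := by
    unfold ll
    have h2 : Real.log (1 + k * s) ≤ Real.log ((1 + s) ^ 2) :=
      Real.log_le_log (by positivity) (by nlinarith)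
    rw [Real.log_pow] at h2
    push_cast at h2
    linarith
  calc k * s * ll (k * s) ≤ k * s * (2 * ll s) := by gcongr
    _ = _ := by ring

lemma ll_tendsto_zero : Tendsto ll (𝓝[>] 0) (𝓝 1) := by
  have hc : ContinuousAt ll 0 := by
    unfold ll
    refine continuousAt_const.add (ContinuousAt.log (by fun_prop) (by norm_num))
  have h := hc.tendsto
  have e : ll 0 = 1 := by unfold ll; simp
  rw [e] at h
  exact h.mono_left nhdsWithin_le_nhds

lemma ll_tendsto_top : Tendsto ll atTop atTop := by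
  unfold ll
  refine tendsto_atTop_add_const_left _ _ (Real.tendsto_log_atTop.comp ?_)
  exact tendsto_atTop_add_const_left _ _ tendsto_id

lemma ww_div_zero : Tendsto (fun t => ww t / t) (𝓝[>] 0) (𝓝 1) := by
  have h := ll_tendsto_zero.inv₀ one_ne_zero
  rw [inv_one] at h
  refine h.congr' ?_
  filter_upwards [self_mem_nhdsWithin] with t ht
  have ht0 : (0 : ℝ) < t := ht
  have := ll_pos ht0.le
  unfold ww
  field_simp

lemma ww_div_top : Tendsto (fun t => ww t / t) atTop (𝓝 0) := by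
  refine (ll_tendsto_top.inv_tendsto_atTop).congr' ?_
  filter_upwards [eventually_gt_atTop 0] with t ht0
  have := ll_pos ht0.le
  unfold ww
  simp only [Pi.inv_apply]
  field_simp

lemma ww_modulus : IsModulus ww := by
  refine ⟨fun t ht => ww_nonneg ht, ww_mono, ?_⟩
  have h1 : Tendsto (fun t : ℝ => t) (𝓝[>] 0) (𝓝 0) := nhdsWithin_le_nhds
  refine squeeze_zero' ?_ ?_ h1
  · filter_upwards [self_mem_nhdsWithin] with t ht
    exact ww_nonneg (le_of_lt ht)
  · filter_upwards [self_mem_nhdsWithin] with t ht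
    exact div_le_self (le_of_lt ht) (ll_ge (le_of_lt ht))

lemma ww_concave : ConcaveOn ℝ (Ici 0) ww := by
  have hcont : ContinuousOn ww (Ici 0) := by
    unfold ww
    refine continuousOn_id.div ?_ ?_
    · unfold ll
      refine continuousOn_const.add (ContinuousOn.log (by fun_prop) ?_)
      intro t ht
      have : (0 : ℝ) ≤ t := ht
      positivity
    · intro t ht
      exact (ll_pos ht).ne'
  have hdl : ∀ t : ℝ, 0 < t → HasDerivAt ll (1 / (1 + t)) t := by
    intro t ht
    unfold ll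
    have h1 : HasDerivAt (fun t : ℝ => 1 + t) 1 t := (hasDerivAt_id t).const_add 1
    exact (h1.log (by positivity)).const_add 1
  refine concaveOn_of_hasDerivWithinAt2_nonpos (f' := fun t => (1 * ll t - t * (1 / (1 + t))) / ll t ^ 2)
    (f'' := fun t => (2 * t - (2 + t) * ll t) / ((1 + t) ^ 2 * ll t ^ 3)) (convex_Ici 0) hcont ?_ ?_ ?_
  · intro t ht
    rw [interior_Ici] at ht
    have ht0 : (0 : ℝ) < t := ht
    exact ((hasDerivAt_id t).div (hdl t ht0) (ll_pos ht0.le).ne').hasDerivWithinAt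
  · intro t ht
    rw [interior_Ici] at ht
    have ht0 : (0 : ℝ) < t := ht
    have hl := ll_pos ht0.le
    have h1t : (1 + t) ≠ 0 := by positivity
    have h1 : HasDerivAt (fun t : ℝ => 1 + t) 1 t := (hasDerivAt_id t).const_add 1
    have h2 : HasDerivAt (fun t : ℝ => 1 / (1 + t)) ((0 * (1 + t) - 1 * 1) / (1 + t) ^ 2) t :=
      (hasDerivAt_const t (1 : ℝ)).div h1 h1t
    have h3 : HasDerivAt (fun t : ℝ => t * (1 / (1 + t)))
        (1 * (1 / (1 + t)) + t * ((0 * (1 + t) - 1 * 1) / (1 + t) ^ 2)) t := (hasDerivAt_id t).mul h2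
    have h4 := ((((hdl t ht0).const_mul 1).sub h3).div ((hdl t ht0).pow 2) (pow_pos hl 2).ne').hasDerivWithinAt
      (s := interior (Ici (0 : ℝ)))
    refine h4.congr_deriv ?_
    simp only [Pi.sub_apply, Pi.pow_apply]
    field_simp
    ring
  · intro t ht
    rw [interior_Ici] at ht
    have ht0 : (0 : ℝ) < t := ht
    have hl := ll_pos ht0.le
    refine div_nonpos_of_nonpos_of_nonneg ?_ (by positivity)
    unfold ll
    have h1 : t / (1 + t) ≤ Real.log (1 + t) := by
      have := Real.one_sub_inv_le_log_of_pos (show (0:ℝ) < 1 + t by positivity)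
      have e : t / (1 + t) = 1 - (1 + t)⁻¹ := by field_simp; ring
      linarith
    have h2 : t ≤ (2 + t) * (t / (1 + t)) := by
      rw [← mul_div_assoc, le_div_iff₀ (by positivity)]
      nlinarith
    nlinarith [mul_le_mul_of_nonneg_left h1 (show (0:ℝ) ≤ 2 + t by positivity)]

/-! ### the local estimate -/

section loc
variable {E : Type*} [NormedAddCommGroup E] [NormedSpace ℝ E]

lemma local_est {G : Set E} (hc : Convex ℝ G) {w : ℝ → ℝ} (hw0 : ∀ t, 0 ≤ t → 0 ≤ w t)
    (hwm : MonotoneOn w (Ici 0)) (hws : ∀ k t : ℝ, 1 ≤ k → 0 ≤ t → w (k * t) ≤ k * w t)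
    {f : E → ℝ} {f' : E → E →L[ℝ] ℝ}
    (hrem : ∀ x ∈ G, ∀ y ∈ G, |f y - f x - f' x (y - x)| ≤ ‖y - x‖ * w ‖y - x‖)
    {p q c0 : E} {r K : ℝ} (hp : p ∈ G) (hq : q ∈ G) (hr : 0 < r) (hK : 1 ≤ K)
    (hball : Metric.ball c0 r ⊆ G) (h1 : ‖c0 - p‖ ≤ K * r) (h2 : ‖p - q‖ ≤ K * r) :
    ‖f' p - f' q‖ ≤ 60 * K * w ‖p - q‖ := by
  have hK0 : 0 < K := by linarith
  rcases eq_or_ne p q with rfl | hne
  · simp only [sub_self, norm_zero]
    have := hw0 0 le_rfl
    positivity
  set t := ‖p - q‖ with ht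
  have ht0 : 0 < t := norm_pos_iff.2 (sub_ne_zero.2 hne)
  have hwt := hw0 t ht0.le
  set s := t / (K * r) with hs
  have hs0 : 0 < s := by positivity
  have hs1 : s ≤ 1 := (div_le_one (by positivity)).2 h2
  have hsr : s * r = t / K := by rw [hs]; field_simp
  set c := p + s • (c0 - p) with hcdef
  have hmem : ∀ v : E, ‖v‖ < t / K → c + v ∈ G := by
    intro v hv
    have hv' : c0 + s⁻¹ • v ∈ G := by
      apply hball
      rw [Metric.mem_ball, dist_eq_norm, add_sub_cancel_left, norm_smul, norm_inv,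
        Real.norm_eq_abs, abs_of_pos hs0, inv_mul_lt_iff₀ hs0, hsr]
      exact hv
    have := hc hp hv' (show (0:ℝ) ≤ 1 - s by linarith) hs0.le (by ring)
    have e : (1 - s) • p + s • (c0 + s⁻¹ • v) = c + v := by
      rw [hcdef, smul_add, smul_smul, mul_inv_cancel₀ hs0.ne']
      module
    rwa [e] at this
  have hcp : ‖c - p‖ ≤ t := by
    rw [hcdef, add_sub_cancel_left, norm_smul, Real.norm_eq_abs, abs_of_pos hs0]
    calc s * ‖c0 - p‖ ≤ s * (K * r) := by gcongr
      _ = t := by rw [hs]; field_simp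
  have htK : t / K ≤ t := div_le_self ht0.le hK
  have hEp : ∀ v : E, ‖v‖ < t / K → |f (c + v) - f p - f' p (c + v - p)| ≤ 4 * (t * w t) := by
    intro v hv
    have hn : ‖c + v - p‖ ≤ 2 * t := by
      have : c + v - p = (c - p) + v := by abel
      rw [this]
      exact (norm_add_le _ _).trans (by linarith)
    refine (hrem p hp _ (hmem v hv)).trans ?_
    have a1 : w ‖c + v - p‖ ≤ 2 * w t :=
      (hwm (norm_nonneg _) (show (0:ℝ) ≤ 2 * t by positivity) hn).trans (hws 2 t (by norm_num) ht0.le)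
    calc ‖c + v - p‖ * w ‖c + v - p‖ ≤ (2 * t) * (2 * w t) := by
          have := hw0 _ (norm_nonneg (c + v - p))
          gcongr
      _ = _ := by ring
  have hEq : ∀ v : E, ‖v‖ < t / K → |f (c + v) - f q - f' q (c + v - q)| ≤ 9 * (t * w t) := by
    intro v hv
    have hn : ‖c + v - q‖ ≤ 3 * t := by
      have : c + v - q = (c - p) + v + (p - q) := by abel
      rw [this]
      have h3 := norm_add_le ((c - p) + v) (p - q)
      have h4 := norm_add_le (c - p) v
      linarith
    refine (hrem q hq _ (hmem v hv)).trans ?_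
    have a1 : w ‖c + v - q‖ ≤ 3 * w t :=
      (hwm (norm_nonneg _) (show (0:ℝ) ≤ 3 * t by positivity) hn).trans (hws 3 t (by norm_num) ht0.le)
    calc ‖c + v - q‖ * w ‖c + v - q‖ ≤ (3 * t) * (3 * w t) := by
          have := hw0 _ (norm_nonneg (c + v - q))
          gcongr
      _ = _ := by ring
  have hsmall : ∀ v : E, ‖v‖ < t / K → |(f' p - f' q) v| ≤ 26 * (t * w t) := by
    intro v hv
    have b1 := hEp v hv
    have b2 := hEp 0 (by rw [norm_zero]; positivity)
    have b3 := hEq v hv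
    have b4 := hEq 0 (by rw [norm_zero]; positivity)
    rw [add_zero] at b2 b4
    have e1 : f' p (c + v - p) = f' p (c - p) + f' p v := by
      rw [← map_add]; congr 1; abel
    have e2 : f' q (c + v - q) = f' q (c - q) + f' q v := by
      rw [← map_add]; congr 1; abel
    rw [e1] at b1
    rw [e2] at b3
    rw [sub_apply]
    rw [abs_le] at *
    constructor <;> linarith [b1.1, b1.2, b2.1, b2.2, b3.1, b3.2, b4.1, b4.2]
  refine ContinuousLinearMap.opNorm_le_bound _ (by positivity) ?_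
  intro v
  rcases eq_or_ne v 0 with rfl | hv
  · simp
  have hvn : 0 < ‖v‖ := norm_pos_iff.2 hv
  set m := t / (2 * K * ‖v‖) with hm
  have hm0 : 0 < m := by positivity
  have h5 : ‖m • v‖ < t / K := by
    rw [norm_smul, Real.norm_eq_abs, abs_of_pos hm0, hm]
    have e : t / (2 * K * ‖v‖) * ‖v‖ = t / K / 2 := by field_simp
    rw [e]
    have : 0 < t / K := by positivity
    linarith
  have h6 := hsmall _ h5
  rw [map_smul, smul_eq_mul, abs_mul, abs_of_pos hm0] at h6
  rw [Real.norm_eq_abs]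
  have h7 : |(f' p - f' q) v| ≤ 26 * (t * w t) / m := by
    rw [le_div_iff₀ hm0]; linarith
  refine h7.trans ?_
  rw [hm]
  have e : 26 * (t * w t) / (t / (2 * K * ‖v‖)) = 52 * (K * w t * ‖v‖) := by field_simp; ring
  rw [e]
  have : 0 ≤ K * w t * ‖v‖ := by positivity
  linarith

end loc

end Pool.Agent.R231.SC
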