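import Pool.Agent.R231.SC.Neg

namespace Pool.Agent.R231.SC

open Set Filter Topology

variable {E : Type*} [NormedAddCommGroup E] [InnerProductSpace ℝ E]

/-- projection orthogonal to `e` -/
noncomputable def PP (e p : E) : E := p - (inner ℝ e p) • e

/-- the open paraboloid `{p : |p - ⟨e,p⟩e|² < ⟨e,p⟩}` -/
def para (e : E) : Set E := {p : E | ‖PP e p‖ ^ 2 < inner ℝ e p}

lemma mem_para {e p : E} : p ∈ para e ↔ ‖PP e p‖ ^ 2 < inner ℝ e p := Iff.rfl

lemma PP_comb (e p q : E) (a b : ℝ) : PP e (a • p + b • q) = a • PP e p + b • PP e q := by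
  unfold PP
  rw [inner_add_right, real_inner_smul_right, real_inner_smul_right]
  module

lemma PP_norm {e : E} (he : ‖e‖ = 1) (p : E) : ‖PP e p‖ ≤ ‖p‖ := by
  have h : ‖PP e p‖ ^ 2 = ‖p‖ ^ 2 - (inner ℝ e p) ^ 2 := by
    unfold PP
    rw [norm_sub_sq_real, real_inner_smul_right, norm_smul, he, mul_one, Real.norm_eq_abs, sq_abs,
      real_inner_comm]
    ring
  have h2 : ‖PP e p‖ ^ 2 ≤ ‖p‖ ^ 2 := by rw [h]; nlinarith [sq_nonneg (inner ℝ e p)]
  exact (pow_le_pow_iff_left₀ (norm_nonneg _) (norm_nonneg _) two_ne_zero).1 h2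

lemma PP_smul_e {e : E} (he : ‖e‖ = 1) (a : ℝ) : PP e (a • e) = 0 := by
  unfold PP
  rw [real_inner_smul_right, real_inner_self_eq_norm_sq, he]
  simp

lemma inner_smul_e {e : E} (he : ‖e‖ = 1) (a : ℝ) : inner ℝ e (a • e) = a := by
  rw [real_inner_smul_right, real_inner_self_eq_norm_sq, he]
  simp

lemma para_open (e : E) : IsOpen (para e) := by
  unfold para PP
  refine isOpen_lt ?_ ?_ <;> fun_prop

lemma para_convex (e : E) : Convex ℝ (para e) := by
  intro p hp q hq a b ha hb hab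
  rw [mem_para] at *
  rw [PP_comb, inner_add_right, real_inner_smul_right, real_inner_smul_right]
  have h1 : ‖a • PP e p + b • PP e q‖ ≤ a * ‖PP e p‖ + b * ‖PP e q‖ := by
    refine (norm_add_le _ _).trans ?_
    rw [norm_smul, norm_smul, Real.norm_eq_abs, Real.norm_eq_abs, abs_of_nonneg ha,
      abs_of_nonneg hb]
  have h2 : ‖a • PP e p + b • PP e q‖ ^ 2 ≤ (a * ‖PP e p‖ + b * ‖PP e q‖) ^ 2 := by
    gcongr
  have h3 : (a * ‖PP e p‖ + b * ‖PP e q‖) ^ 2 ≤ a * ‖PP e p‖ ^ 2 + b * ‖PP e q‖ ^ 2 := by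
    have hb' : b = 1 - a := by linarith
    subst hb'
    nlinarith [mul_nonneg (mul_nonneg ha hb) (sq_nonneg (‖PP e p‖ - ‖PP e q‖))]
  rcases ha.eq_or_lt with h | h
  · subst h
    have hb' : b = 1 := by linarith
    subst hb'
    linarith
  · nlinarith [mul_lt_mul_of_pos_left hp h, mul_le_mul_of_nonneg_left hq.le hb]

lemma para_unbounded {e : E} (he : ‖e‖ = 1) : ¬ Bornology.IsBounded (para e) := by
  intro hb
  obtain ⟨C, hC⟩ := isBounded_iff_forall_norm_le.1 hb
  have hm : (|C| + 1) • e ∈ para e := by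
    rw [mem_para, PP_smul_e he, inner_smul_e he, norm_zero]
    have := abs_nonneg C
    simp only [ne_eq, OfNat.ofNat_ne_zero, not_false_eq_true, zero_pow]
    linarith
  have := hC _ hm
  rw [norm_smul, he, mul_one, Real.norm_eq_abs, abs_of_pos (by positivity)] at this
  linarith [le_abs_self C]

lemma para_conefree {e u : E} (he : ‖e‖ = 1) (hu : ‖u‖ = 1) (heu : inner ℝ e u = 0) :
    ConeFree (para e) := by
  rintro ⟨a, C, hC, -, ⟨c, hc⟩, haC⟩
  -- a point of C with nonzero projection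
  obtain ⟨d, hd, hPd⟩ : ∃ d ∈ C, PP e d ≠ 0 := by
    by_cases h : PP e c = 0
    · obtain ⟨δ, hδ, hball⟩ := Metric.isOpen_iff.1 isOpen_interior c hc
      refine ⟨c + (δ / 2) • u, interior_subset (hball ?_), ?_⟩
      · rw [Metric.mem_ball, dist_eq_norm, add_sub_cancel_left, norm_smul, hu, mul_one,
          Real.norm_eq_abs, abs_of_pos (by positivity)]
        linarith
      · have e1 : PP e (c + (δ / 2) • u) = (δ / 2) • u := by
          have := PP_comb e c u 1 (δ / 2)
          rw [one_smul, one_smul, h, zero_add] at this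
          rw [this]
          unfold PP
          rw [heu]; simp
        rw [e1]
        intro h2
        have h3 := congrArg norm h2
        rw [norm_smul, hu, mul_one, Real.norm_eq_abs, abs_of_pos (by positivity), norm_zero] at h3
        linarith
    · exact ⟨c, interior_subset hc, h⟩
  have hP0 : 0 < ‖PP e d‖ := norm_pos_iff.2 hPd
  have key : ∀ l : ℝ, 0 < l → (l * ‖PP e d‖) ^ 2 / 2 - ‖PP e a‖ ^ 2 < |inner ℝ e a| + l * |inner ℝ e d| := by
    intro l hl
    have h1 := haC _ (hC d hd l hl)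
    rw [mem_para] at h1
    have e1 : PP e (a + l • d) = PP e a + l • PP e d := by
      have := PP_comb e a d 1 l
      rwa [one_smul, one_smul] at this
    rw [e1, inner_add_right, real_inner_smul_right] at h1
    have h2 : ‖l • PP e d‖ ≤ ‖PP e a + l • PP e d‖ + ‖PP e a‖ := by
      have h3 : l • PP e d = (PP e a + l • PP e d) - PP e a := by abel
      calc ‖l • PP e d‖ = ‖(PP e a + l • PP e d) - PP e a‖ := by rw [← h3]
        _ ≤ _ := norm_sub_le _ _
    rw [norm_smul, Real.norm_eq_abs, abs_of_pos hl] at h2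
    have h4 : (l * ‖PP e d‖) ^ 2 ≤ (‖PP e a + l • PP e d‖ + ‖PP e a‖) ^ 2 := by gcongr
    have h5 : (‖PP e a + l • PP e d‖ + ‖PP e a‖) ^ 2 ≤ 2 * ‖PP e a + l • PP e d‖ ^ 2 + 2 * ‖PP e a‖ ^ 2 := by
      nlinarith [sq_nonneg (‖PP e a + l • PP e d‖ - ‖PP e a‖)]
    have h6 := le_abs_self (inner ℝ e a)
    have h7 := mul_le_mul_of_nonneg_left (le_abs_self (inner ℝ e d)) hl.le
    linarith
  set A := |inner ℝ e a| + ‖PP e a‖ ^ 2
  set B := |inner ℝ e d|
  have hA : 0 ≤ A := by positivity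
  have hB : 0 ≤ B := abs_nonneg _
  set P := ‖PP e d‖ ^ 2 / 2 with hP
  have hPp : 0 < P := by positivity
  -- l = (A + B + 1)/P + 1
  set l := (A + B + 1) / P + 1 with hl
  have hl0 : 1 ≤ l := by
    have : 0 ≤ (A + B + 1) / P := by positivity
    linarith
  have h8 := key l (by linarith)
  have h9 : (l * ‖PP e d‖) ^ 2 / 2 = l ^ 2 * P := by rw [hP]; ring
  rw [h9] at h8
  have h10 : A + B + 1 ≤ l * P := by
    rw [hl, add_mul, div_mul_cancel₀ _ hPp.ne']; linarith
  have h11 : l * (A + B + 1) ≤ l ^ 2 * P := by nlinarith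
  have h12 : A ≤ l * A := by nlinarith
  nlinarith

/-- axis points -/
noncomputable def ax (e : E) (s : ℝ) : E := (s ^ 2) • e

lemma ax_ball {e : E} (he : ‖e‖ = 1) {s : ℝ} (hs : 1 ≤ s) :
    Metric.ball (ax e s) (s / 2) ⊆ para e := by
  intro z hz
  rw [Metric.mem_ball, dist_eq_norm] at hz
  rw [mem_para]
  have h1 : ‖PP e z‖ < s / 2 := by
    have e1 : PP e z = PP e (z - ax e s) := by
      have := PP_comb e z (ax e s) 1 (-1)
      have e2 : PP e (ax e s) = 0 := PP_smul_e he _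
      rw [e2, one_smul, one_smul, smul_zero, add_zero, neg_one_smul, ← sub_eq_add_neg] at this
      exact this.symm
    rw [e1]
    exact (PP_norm he _).trans_lt hz
  have h2 : |inner ℝ e z - s ^ 2| < s / 2 := by
    have e1 : inner ℝ e z - s ^ 2 = inner ℝ e (z - ax e s) := by
      rw [inner_sub_right]
      unfold ax
      rw [inner_smul_e he]
    rw [e1]
    refine lt_of_le_of_lt (abs_real_inner_le_norm _ _) ?_
    rw [he, one_mul]; exact hz
  have h3 := (abs_lt.1 h2).1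
  have h4 : ‖PP e z‖ ^ 2 < (s / 2) ^ 2 := by
    have := norm_nonneg (PP e z)
    gcongr
  nlinarith

lemma ax_mem {e : E} (he : ‖e‖ = 1) {s : ℝ} (hs : 1 ≤ s) : ax e s ∈ para e :=
  ax_ball he hs (Metric.mem_ball_self (by linarith))

lemma decomp {e : E} (p : E) : p = (inner ℝ e p) • e + PP e p := by
  unfold PP; abel

section
variable {w : ℝ → ℝ} {f : E → ℝ} {f' : E → E →L[ℝ] ℝ} {e : E}

lemma ax_step (he : ‖e‖ = 1) (hw0 : ∀ t, 0 ≤ t → 0 ≤ w t)
    (hwm : MonotoneOn w (Ici 0)) (hws : ∀ k t : ℝ, 1 ≤ k → 0 ≤ t → w (k * t) ≤ k * w t)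
    (hrem : ∀ x ∈ para e, ∀ y ∈ para e, |f y - f x - f' x (y - x)| ≤ ‖y - x‖ * w ‖y - x‖)
    {a b S : ℝ} (ha : 1 ≤ a) (hab : a ≤ b) (hb1 : b - a ≤ 1) (hbS : b ≤ S) :
    ‖f' (ax e a) - f' (ax e b)‖ ≤ 480 * w S := by
  have hb : 1 ≤ b := ha.trans hab
  have hd : ‖ax e a - ax e b‖ = b ^ 2 - a ^ 2 := by
    unfold ax
    rw [← sub_smul, norm_smul, he, mul_one, Real.norm_eq_abs, abs_sub_comm, abs_of_nonneg (by nlinarith)]
  have hd2 : b ^ 2 - a ^ 2 ≤ 2 * b := by nlinarith
  have hd0 : 0 ≤ b ^ 2 - a ^ 2 := by nlinarith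
  have h1 := local_est (para_convex e) hw0 hwm hws hrem (c0 := ax e b) (r := b / 2) (K := 4)
    (ax_mem he ha) (ax_mem he hb) (by linarith) (by norm_num) (ax_ball he hb)
    (by rw [norm_sub_rev, hd]; linarith) (by rw [hd]; linarith)
  rw [hd] at h1
  have h2 : w (b ^ 2 - a ^ 2) ≤ 2 * w S := by
    have h3 : w (b ^ 2 - a ^ 2) ≤ w (2 * S) :=
      hwm hd0 (show (0:ℝ) ≤ 2 * S by linarith) (by linarith)
    exact h3.trans (hws 2 S (by norm_num) (by linarith))
  linarith

lemma ax_chain (he : ‖e‖ = 1) (hw0 : ∀ t, 0 ≤ t → 0 ≤ w t)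
    (hwm : MonotoneOn w (Ici 0)) (hws : ∀ k t : ℝ, 1 ≤ k → 0 ≤ t → w (k * t) ≤ k * w t)
    (hrem : ∀ x ∈ para e, ∀ y ∈ para e, |f y - f x - f' x (y - x)| ≤ ‖y - x‖ * w ‖y - x‖)
    {S : ℝ} (n : ℕ) : ∀ {a b : ℝ}, 1 ≤ a → a ≤ b → b - a ≤ n → b ≤ S →
    ‖f' (ax e a) - f' (ax e b)‖ ≤ n * (480 * w S) := by
  induction n with
  | zero =>
    intro a b ha hab hn hS
    have : a = b := by push_cast at hn; linarith
    subst this
    simp
  | succ n ih =>
    intro a b ha hab hn hS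
    push_cast at hn
    have hwS : 0 ≤ w S := hw0 S (by linarith)
    rcases le_or_gt (b - a) 1 with h | h
    · have := ax_step he hw0 hwm hws hrem ha hab h hS
      refine this.trans ?_
      push_cast
      have hn0 : (0 : ℝ) ≤ n := Nat.cast_nonneg n
      nlinarith [mul_nonneg hn0 hwS]
    · have h1 := ih ha (show a ≤ b - 1 by linarith) (by linarith) (by linarith : b - 1 ≤ S)
      have h2 := ax_step he hw0 hwm hws hrem (show 1 ≤ b - 1 by linarith) (by linarith : b - 1 ≤ b)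
        (by linarith) hS
      have h3 : f' (ax e a) - f' (ax e b) = (f' (ax e a) - f' (ax e (b - 1))) +
          (f' (ax e (b - 1)) - f' (ax e b)) := by abel
      rw [h3]
      refine (norm_add_le _ _).trans ?_
      push_cast
      linarith

lemma near_axis (he : ‖e‖ = 1) (hw0 : ∀ t, 0 ≤ t → 0 ≤ w t)
    (hwm : MonotoneOn w (Ici 0)) (hws : ∀ k t : ℝ, 1 ≤ k → 0 ≤ t → w (k * t) ≤ k * w t)
    (hrem : ∀ x ∈ para e, ∀ y ∈ para e, |f y - f x - f' x (y - x)| ≤ ‖y - x‖ * w ‖y - x‖)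
    {p : E} (hp : p ∈ para e) {s T : ℝ} (hs : 1 ≤ s) (hsp : s ^ 2 = inner ℝ e p + 1)
    (hT : 2 * s ≤ T) : ‖f' p - f' (ax e s)‖ ≤ 240 * w T := by
  rw [mem_para] at hp
  have hPp : ‖PP e p‖ ≤ s := by
    have h1 : ‖PP e p‖ ^ 2 ≤ s ^ 2 := by linarith
    exact (pow_le_pow_iff_left₀ (norm_nonneg _) (by linarith) two_ne_zero).1 h1
  have hd : ‖ax e s - p‖ ≤ 2 * s := by
    have e1 : ax e s - p = e - PP e p := by
      unfold ax PP
      rw [hsp]; module
    rw [e1]
    refine (norm_sub_le _ _).trans ?_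
    rw [he]; linarith
  have hd' : ‖p - ax e s‖ ≤ 2 * s := by rwa [norm_sub_rev]
  have h1 := local_est (para_convex e) hw0 hwm hws hrem (c0 := ax e s) (r := s / 2) (K := 4)
    hp (ax_mem he hs) (by linarith) (by norm_num) (ax_ball he hs)
    (by linarith) (by linarith)
  have h2 : w ‖p - ax e s‖ ≤ w T := hwm (norm_nonneg _) (show (0:ℝ) ≤ T by linarith) (by linarith)
  linarith

end

lemma global_est {e : E} (he : ‖e‖ = 1) {f : E → ℝ} {f' : E → E →L[ℝ] ℝ}
    (hrem : ∀ x ∈ para e, ∀ y ∈ para e, |f y - f x - f' x (y - x)| ≤ ‖y - x‖ * ww ‖y - x‖)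
    {p q : E} (hp : p ∈ para e) (hq : q ∈ para e) (hpq : inner ℝ e p ≤ inner ℝ e q) :
    ‖f' p - f' q‖ ≤ 2400 * ww ‖p - q‖ := by
  have hw0 : ∀ t, 0 ≤ t → 0 ≤ ww t := fun t ht => ww_nonneg ht
  have hwm := ww_mono
  have hws : ∀ k t : ℝ, 1 ≤ k → 0 ≤ t → ww (k * t) ≤ k * ww t := fun k t hk ht => ww_sub hk ht
  have hp' := mem_para.1 hp
  have hq' := mem_para.1 hq
  set yp := inner ℝ e p with hyp
  set yq := inner ℝ e q with hyq
  have hyp0 : 0 < yp := lt_of_le_of_lt (sq_nonneg _) hp'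
  have hyq0 : 0 < yq := lt_of_le_of_lt (sq_nonneg _) hq'
  set sp := Real.sqrt (yp + 1) with hsp
  set sq := Real.sqrt (yq + 1) with hsq
  have hsp2 : sp ^ 2 = yp + 1 := Real.sq_sqrt (by linarith)
  have hsq2 : sq ^ 2 = yq + 1 := Real.sq_sqrt (by linarith)
  have hsp1 : 1 ≤ sp := Real.one_le_sqrt.2 (by linarith)
  have hsq1 : 1 ≤ sq := Real.one_le_sqrt.2 (by linarith)
  have hspq : sp ≤ sq := Real.sqrt_le_sqrt (by linarith)
  have hPp : ‖PP e p‖ ≤ sp := by
    have h1 : ‖PP e p‖ ^ 2 ≤ sp ^ 2 := by linarith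
    exact (pow_le_pow_iff_left₀ (norm_nonneg _) (by linarith) two_ne_zero).1 h1
  have hPq : ‖PP e q‖ ≤ sq := by
    have h1 : ‖PP e q‖ ^ 2 ≤ sq ^ 2 := by linarith
    exact (pow_le_pow_iff_left₀ (norm_nonneg _) (by linarith) two_ne_zero).1 h1
  set t := ‖p - q‖ with ht
  have ht0 : 0 ≤ t := norm_nonneg _
  have hwt : 0 ≤ ww t := ww_nonneg ht0
  have hyd : yq - yp ≤ t := by
    have e1 : yq - yp = inner ℝ e (q - p) := by rw [inner_sub_right]
    rw [e1]
    refine (le_abs_self _).trans ((abs_real_inner_le_norm _ _).trans ?_)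
    rw [he, one_mul, norm_sub_rev]
  rcases le_or_gt t (4 * sq) with hcase | hcase
  · have hd : ‖ax e sq - p‖ ≤ 12 * (sq / 2) := by
      have e1 : ax e sq - p = (yq + 1 - yp) • e - PP e p := by
        unfold ax PP
        rw [hsq2, ← hyp]; module
      rw [e1]
      refine (norm_sub_le _ _).trans ?_
      rw [norm_smul, he, mul_one, Real.norm_eq_abs, abs_of_nonneg (by linarith)]
      linarith
    have h1 := local_est (para_convex e) hw0 hwm hws hrem (c0 := ax e sq) (r := sq / 2) (K := 12)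
      hp hq (by linarith) (by norm_num) (ax_ball he hsq1) hd (by linarith)
    refine h1.trans ?_
    nlinarith
  · have hyt : t / 2 ≤ yq - yp := by
      have h1 : t ≤ (yq - yp) + (‖PP e p‖ + ‖PP e q‖) := by
        have e1 : p - q = (yp - yq) • e + (PP e p - PP e q) := by
          unfold PP
          rw [← hyp, ← hyq]; module
        rw [ht, e1]
        refine (norm_add_le _ _).trans ?_
        rw [norm_smul, he, mul_one, Real.norm_eq_abs, abs_sub_comm, abs_of_nonneg (by linarith)]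
        have := norm_sub_le (PP e p) (PP e q)
        linarith
      linarith
    set k := sq - sp with hk
    have hkk : k * (sq + sp) = yq - yp := by rw [hk]; nlinarith
    have hk1 : 1 ≤ k := by
      by_contra hcon
      push Not at hcon
      have : k * (sq + sp) < 2 * sq := by nlinarith
      linarith
    have hks : k * sq ≤ t := by nlinarith
    have h1 := near_axis he hw0 hwm hws hrem hq hsq1 (by rw [hsq2]) (T := t) (by linarith)
    have h2 := near_axis he hw0 hwm hws hrem hp hsp1 (by rw [hsp2]) (T := t) (by linarith)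
    have h3 := ax_chain he hw0 hwm hws hrem (S := sq) ⌈k⌉₊ hsp1 hspq (Nat.le_ceil _) le_rfl
    have h4 : (⌈k⌉₊ : ℝ) ≤ 2 * k := by
      have := Nat.ceil_lt_add_one (show 0 ≤ k by linarith)
      linarith
    have h5 : k * ww sq ≤ 2 * ww t := by
      refine (ww_chain (by linarith) (by linarith)).trans ?_
      have := hwm (show (0:ℝ) ≤ k * sq by nlinarith) ht0 hks
      linarith
    have h6 : (⌈k⌉₊ : ℝ) * (480 * ww sq) ≤ 1920 * ww t := by
      have hwsq : 0 ≤ ww sq := ww_nonneg (by linarith)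
      calc (⌈k⌉₊ : ℝ) * (480 * ww sq) ≤ (2 * k) * (480 * ww sq) := by gcongr
        _ = 960 * (k * ww sq) := by ring
        _ ≤ 960 * (2 * ww t) := by gcongr
        _ = _ := by ring
    have h7 : f' p - f' q = (f' p - f' (ax e sp)) + (f' (ax e sp) - f' (ax e sq)) -
        (f' q - f' (ax e sq)) := by abel
    rw [h7]
    refine (norm_sub_le _ _).trans ?_
    have h8 := norm_add_le (f' p - f' (ax e sp)) (f' (ax e sp) - f' (ax e sq))
    linarith

theorem neg_main [FiniteDimensional ℝ E] {e : E} (he : ‖e‖ = 1) (f : E → ℝ)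
    (h1 : Semiconvex (para e) ww f) (h2 : Semiconcave (para e) ww f) : InC1 (para e) ww f := by
  have hd := fun (x : E) (hx : x ∈ para e) => diff_of_both (para_open e) ww_modulus (two_sided h1 h2) hx
  choose! f' hf' using hd
  refine ⟨2400, by norm_num, f', fun x hx => (hf' x hx).1, ?_⟩
  have hrem : ∀ x ∈ para e, ∀ y ∈ para e, |f y - f x - f' x (y - x)| ≤ ‖y - x‖ * ww ‖y - x‖ :=
    fun x hx y hy => (hf' x hx).2 y hy
  intro x hx y hy
  rcases le_total (inner ℝ e x) (inner ℝ e y) with h | h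
  · exact global_est he hrem hx hy h
  · rw [norm_sub_rev, norm_sub_rev x y]
    exact global_est he hrem hy hx h

end Pool.Agent.R231.SC
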