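import Pool.Agent.R231.SC.Defs

namespace Pool.Agent.R231.SC

open Set Filter Topology

variable {E : Type*} [NormedAddCommGroup E] [InnerProductSpace ℝ E]

/-- the basic function -/
noncomputable def F1 (u x : E) : ℝ := inner ℝ u x * (‖x‖ ^ 2 / (1 + ‖x‖ ^ 2))

/-- the D-functional -/
noncomputable def DD (f : E → ℝ) (x y : E) (l : ℝ) : ℝ :=
  l * f x + (1 - l) * f y - f (l • x + (1 - l) • y)

noncomputable def jj (x : E) : E := (1 / (1 + ‖x‖ ^ 2)) • x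

lemma jj_norm (x : E) : ‖jj x‖ ≤ 1 / 2 := by
  unfold jj
  rw [norm_smul, Real.norm_eq_abs, abs_of_pos (by positivity), div_mul_eq_mul_div, one_mul,
    div_le_div_iff₀ (by positivity) (by norm_num)]
  nlinarith [sq_nonneg (‖x‖ - 1)]

lemma jj_lip (x y : E) : ‖jj x - jj y‖ ≤ ‖x - y‖ * ((1 + ‖x‖ * ‖y‖) / ((1 + ‖x‖ ^ 2) * (1 + ‖y‖ ^ 2))) := by
  have hx : 0 < 1 + ‖x‖ ^ 2 := by positivity
  have hy : 0 < 1 + ‖y‖ ^ 2 := by positivity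
  have key : jj x - jj y = (1 / ((1 + ‖x‖ ^ 2) * (1 + ‖y‖ ^ 2))) •
      ((x - y) + (‖y‖ ^ 2 • x - ‖x‖ ^ 2 • y)) := by
    unfold jj
    have e1 : (1 / (1 + ‖x‖ ^ 2)) = (1 / ((1 + ‖x‖ ^ 2) * (1 + ‖y‖ ^ 2))) * (1 + ‖y‖ ^ 2) := by
      field_simp
    have e2 : (1 / (1 + ‖y‖ ^ 2)) = (1 / ((1 + ‖x‖ ^ 2) * (1 + ‖y‖ ^ 2))) * (1 + ‖x‖ ^ 2) := by
      field_simp
    rw [e1, e2, mul_smul, mul_smul, ← smul_sub]
    congr 1
    rw [add_smul, add_smul, one_smul, one_smul]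
    abel
  have h2 : ‖‖y‖ ^ 2 • x - ‖x‖ ^ 2 • y‖ = ‖x‖ * ‖y‖ * ‖x - y‖ := by
    have h3 : ‖‖y‖ ^ 2 • x - ‖x‖ ^ 2 • y‖ ^ 2 = (‖x‖ * ‖y‖ * ‖x - y‖) ^ 2 := by
      rw [mul_pow, norm_sub_sq_real, norm_sub_sq_real, norm_smul, norm_smul,
        real_inner_smul_left, real_inner_smul_right, Real.norm_eq_abs, Real.norm_eq_abs,
        abs_of_nonneg (by positivity), abs_of_nonneg (by positivity)]
      ring
    exact (pow_left_inj₀ (by positivity) (by positivity) (by norm_num)).1 h3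
  rw [key, norm_smul, Real.norm_eq_abs, abs_of_pos (by positivity)]
  have h3 : ‖(x - y) + (‖y‖ ^ 2 • x - ‖x‖ ^ 2 • y)‖ ≤ ‖x - y‖ * (1 + ‖x‖ * ‖y‖) := by
    refine (norm_add_le _ _).trans ?_
    rw [h2]; nlinarith
  calc 1 / ((1 + ‖x‖ ^ 2) * (1 + ‖y‖ ^ 2)) * ‖(x - y) + (‖y‖ ^ 2 • x - ‖x‖ ^ 2 • y)‖
      ≤ 1 / ((1 + ‖x‖ ^ 2) * (1 + ‖y‖ ^ 2)) * (‖x - y‖ * (1 + ‖x‖ * ‖y‖)) := by gcongr
    _ = _ := by ring

lemma jj_lip' (x y : E) : ‖jj x - jj y‖ ≤ ‖x - y‖ := by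
  refine (jj_lip x y).trans ?_
  have : (1 + ‖x‖ * ‖y‖) / ((1 + ‖x‖ ^ 2) * (1 + ‖y‖ ^ 2)) ≤ 1 := by
    rw [div_le_one (by positivity)]
    nlinarith [sq_nonneg (‖x‖ - ‖y‖), sq_nonneg (‖x‖ * ‖y‖ - 1), sq_nonneg (‖x‖ * ‖y‖)]
  nlinarith [norm_nonneg (x - y)]

lemma sub_in (x z : E) : inner ℝ (x - z) (x + z) = ‖x‖ ^ 2 - ‖z‖ ^ 2 := by
  rw [inner_sub_left, inner_add_right, inner_add_right, real_inner_self_eq_norm_sq,
      real_inner_self_eq_norm_sq, real_inner_comm z x]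
  ring

/-- the vector `V` -/
noncomputable def VV (u x y z : E) : E :=
  (1 / (1 + ‖z‖ ^ 2)) • (((inner ℝ u x) / (1 + ‖x‖ ^ 2)) • (x + z) -
    ((inner ℝ u y) / (1 + ‖y‖ ^ 2)) • (y + z))

lemma DD_eq (u x y : E) (l : ℝ) :
    DD (F1 u) x y l = l * (1 - l) * inner ℝ (x - y) (VV u x y (l • x + (1 - l) • y)) := by
  set z := l • x + (1 - l) • y with hz
  have hx : 0 < 1 + ‖x‖ ^ 2 := by positivity
  have hy : 0 < 1 + ‖y‖ ^ 2 := by positivity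
  have hzp : 0 < 1 + ‖z‖ ^ 2 := by positivity
  have e1 : ‖x‖ ^ 2 - ‖z‖ ^ 2 = (1 - l) * inner ℝ (x - y) (x + z) := by
    have : (1 - l) * inner ℝ (x - y) (x + z) = inner ℝ (x - z) (x + z) := by
      rw [← real_inner_smul_left]
      congr 1
      rw [hz]; module
    rw [this, sub_in]
  have e2 : ‖y‖ ^ 2 - ‖z‖ ^ 2 = - l * inner ℝ (x - y) (y + z) := by
    have : - l * inner ℝ (x - y) (y + z) = inner ℝ (y - z) (y + z) := by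
      rw [← real_inner_smul_left]
      congr 1
      rw [hz]; module
    rw [this, sub_in]
  have e3 : inner ℝ u z = l * inner ℝ u x + (1 - l) * inner ℝ u y := by
    rw [hz, inner_add_right, real_inner_smul_right, real_inner_smul_right]
  have g1 : ‖x‖ ^ 2 / (1 + ‖x‖ ^ 2) - ‖z‖ ^ 2 / (1 + ‖z‖ ^ 2) =
      (1 - l) * inner ℝ (x - y) (x + z) / ((1 + ‖x‖ ^ 2) * (1 + ‖z‖ ^ 2)) := by
    rw [← e1]; field_simp; ring
  have g2 : ‖y‖ ^ 2 / (1 + ‖y‖ ^ 2) - ‖z‖ ^ 2 / (1 + ‖z‖ ^ 2) =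
      - l * inner ℝ (x - y) (y + z) / ((1 + ‖y‖ ^ 2) * (1 + ‖z‖ ^ 2)) := by
    rw [← e2]; field_simp; ring
  have hD : DD (F1 u) x y l = l * inner ℝ u x * (‖x‖ ^ 2 / (1 + ‖x‖ ^ 2) - ‖z‖ ^ 2 / (1 + ‖z‖ ^ 2)) +
      (1 - l) * inner ℝ u y * (‖y‖ ^ 2 / (1 + ‖y‖ ^ 2) - ‖z‖ ^ 2 / (1 + ‖z‖ ^ 2)) := by
    unfold DD F1
    rw [← hz, e3]; ring
  rw [hD, g1, g2]
  unfold VV
  rw [real_inner_smul_right, inner_sub_right, real_inner_smul_right, real_inner_smul_right]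
  field_simp
  ring

lemma VV_bdA (u x y z : E) (hu : ‖u‖ = 1) :
    ‖VV u x y z‖ ≤ 3 * ‖x - y‖ := by
  have hx : 0 < 1 + ‖x‖ ^ 2 := by positivity
  have hy : 0 < 1 + ‖y‖ ^ 2 := by positivity
  have hzp : 0 < 1 + ‖z‖ ^ 2 := by positivity
  have hV : VV u x y z = (1 / (1 + ‖z‖ ^ 2)) • ((inner ℝ u x • (jj x - jj y) +
      inner ℝ u (x - y) • jj y) + (inner ℝ u (jj x - jj y)) • z) := by
    unfold VV jj
    congr 1
    rw [inner_sub_right, inner_sub_right, real_inner_smul_right, real_inner_smul_right]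
    match_scalars <;> field_simp <;> ring
  have h1 : ‖inner ℝ u x • (jj x - jj y)‖ ≤ ‖x - y‖ := by
    rw [norm_smul]
    have a1 : ‖inner ℝ u x‖ ≤ ‖x‖ := by
      have := norm_inner_le_norm (𝕜 := ℝ) u x
      rwa [hu, one_mul] at this
    have a2 := jj_lip x y
    have a3 : ‖x‖ * ((1 + ‖x‖ * ‖y‖) / ((1 + ‖x‖ ^ 2) * (1 + ‖y‖ ^ 2))) ≤ 1 := by
      rw [← mul_div_assoc, div_le_one (by positivity)]
      have p := norm_nonneg x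
      have q := norm_nonneg y
      nlinarith [sq_nonneg (‖x‖ - 1), sq_nonneg (‖y‖ - 1), mul_nonneg (sq_nonneg ‖x‖) (sq_nonneg (‖y‖ - 1)),
        sq_nonneg ‖x‖, sq_nonneg ‖y‖, mul_nonneg (sq_nonneg ‖x‖) (sq_nonneg ‖y‖)]
    calc ‖inner ℝ u x‖ * ‖jj x - jj y‖ ≤ ‖x‖ * (‖x - y‖ * ((1 + ‖x‖ * ‖y‖) / ((1 + ‖x‖ ^ 2) * (1 + ‖y‖ ^ 2)))) := by
          gcongr
      _ = ‖x - y‖ * (‖x‖ * ((1 + ‖x‖ * ‖y‖) / ((1 + ‖x‖ ^ 2) * (1 + ‖y‖ ^ 2)))) := by ring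
      _ ≤ ‖x - y‖ * 1 := by gcongr
      _ = _ := mul_one _
  have h2 : ‖inner ℝ u (x - y) • jj y‖ ≤ ‖x - y‖ := by
    rw [norm_smul]
    have a1 : ‖inner ℝ u (x - y)‖ ≤ ‖x - y‖ := by
      have := norm_inner_le_norm (𝕜 := ℝ) u (x - y)
      rwa [hu, one_mul] at this
    have a2 := jj_norm y
    nlinarith [norm_nonneg (x - y), norm_nonneg (jj y), norm_nonneg (inner ℝ u (x - y))]
  have h3 : ‖(inner ℝ u (jj x - jj y)) • z‖ ≤ ‖x - y‖ * ‖z‖ := by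
    rw [norm_smul]
    have a1 : ‖inner ℝ u (jj x - jj y)‖ ≤ ‖jj x - jj y‖ := by
      have := norm_inner_le_norm (𝕜 := ℝ) u (jj x - jj y)
      rwa [hu, one_mul] at this
    have a2 := jj_lip' x y
    exact mul_le_mul_of_nonneg_right (a1.trans a2) (norm_nonneg _)
  rw [hV, norm_smul, Real.norm_eq_abs, abs_of_pos (by positivity), div_mul_eq_mul_div, one_mul,
    div_le_iff₀ hzp]
  have h4 := (norm_add_le (inner ℝ u x • (jj x - jj y) + inner ℝ u (x - y) • jj y)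
    ((inner ℝ u (jj x - jj y)) • z)).trans (add_le_add_left (norm_add_le _ _) _)
  have h5 : ‖z‖ ≤ 1 + ‖z‖ ^ 2 := by nlinarith [sq_nonneg (‖z‖ - 1), norm_nonneg z]
  nlinarith [norm_nonneg (x - y), norm_nonneg z, mul_nonneg (norm_nonneg (x - y)) (sq_nonneg ‖z‖),
    mul_le_mul_of_nonneg_left h5 (norm_nonneg (x - y))]

lemma VV_bdB (u x y z : E) (ε : ℝ) (hε : 0 ≤ ε)
    (hx' : |inner ℝ u x| ≤ ε * (1 + ‖x‖)) (hy' : |inner ℝ u y| ≤ ε * (1 + ‖y‖)) :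
    ‖VV u x y z‖ ≤ 6 * ε := by
  have aux : ∀ x : E, |inner ℝ u x| ≤ ε * (1 + ‖x‖) →
      ‖((inner ℝ u x) / (1 + ‖x‖ ^ 2)) • (x + z)‖ ≤ 3 * ε * (1 + ‖z‖ ^ 2) := by
    intro x hx'
    have hx : 0 < 1 + ‖x‖ ^ 2 := by positivity
    have hzp : 0 < 1 + ‖z‖ ^ 2 := by positivity
    rw [norm_smul, Real.norm_eq_abs, abs_div, abs_of_pos hx, div_mul_eq_mul_div,
      div_le_iff₀ hx]
    calc |inner ℝ u x| * ‖x + z‖ ≤ (ε * (1 + ‖x‖)) * (‖x‖ + ‖z‖) := by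
          gcongr
          exact norm_add_le _ _
      _ = ε * ((1 + ‖x‖) * (‖x‖ + ‖z‖)) := by ring
      _ ≤ ε * (3 * ((1 + ‖z‖ ^ 2) * (1 + ‖x‖ ^ 2))) := by
          refine mul_le_mul_of_nonneg_left ?_ hε
          nlinarith [sq_nonneg (‖x‖ - 1), sq_nonneg (‖z‖ - 1), sq_nonneg (‖x‖ - ‖z‖),
            mul_nonneg (sq_nonneg ‖x‖) (sq_nonneg ‖z‖), sq_nonneg ‖x‖, sq_nonneg ‖z‖]
      _ = _ := by ring
  have hzp : 0 < 1 + ‖z‖ ^ 2 := by positivity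
  unfold VV
  rw [norm_smul, Real.norm_eq_abs, abs_of_pos (by positivity), div_mul_eq_mul_div, one_mul,
    div_le_iff₀ hzp]
  have h1 := aux x hx'
  have h2 := aux y hy'
  have h3 := norm_sub_le (((inner ℝ u x) / (1 + ‖x‖ ^ 2)) • (x + z))
    (((inner ℝ u y) / (1 + ‖y‖ ^ 2)) • (y + z))
  linarith

lemma DD_F1 (u x y : E) (hu : ‖u‖ = 1) (ε : ℝ) (hε : 0 < ε) {α : ℝ} (h0 : 0 < α) (h1 : α < 1)
    (hx' : |inner ℝ u x| ≤ ε * (1 + ‖x‖)) (hy' : |inner ℝ u y| ≤ ε * (1 + ‖y‖))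
    {l : ℝ} (hl : l ∈ Icc (0 : ℝ) 1) :
    |DD (F1 u) x y l| ≤ l * (1 - l) * ‖x - y‖ * (6 * ε ^ (1 - α) * ‖x - y‖ ^ α) := by
  rw [DD_eq]
  set z := l • x + (1 - l) • y
  have hl1 : 0 ≤ l * (1 - l) := mul_nonneg hl.1 (by linarith [hl.2])
  rw [abs_mul, abs_of_nonneg hl1, mul_assoc (l * (1 - l))]
  refine mul_le_mul_of_nonneg_left ?_ hl1
  have h2 : |inner ℝ (x - y) (VV u x y z)| ≤ ‖x - y‖ * ‖VV u x y z‖ := abs_real_inner_le_norm _ _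
  refine h2.trans (mul_le_mul_of_nonneg_left ?_ (norm_nonneg _))
  have hA := VV_bdA u x y z hu
  have hB := VV_bdB u x y z ε hε.le hx' hy'
  have hV : ‖VV u x y z‖ = ‖VV u x y z‖ ^ (1 - α) * ‖VV u x y z‖ ^ α := by
    rw [← Real.rpow_add_of_nonneg (norm_nonneg _) (by linarith) h0.le]
    simp
  rw [hV]
  have c1 : ‖VV u x y z‖ ^ (1 - α) ≤ (6 * ε) ^ (1 - α) :=
    Real.rpow_le_rpow (norm_nonneg _) hB (by linarith)
  have c2 : ‖VV u x y z‖ ^ α ≤ (6 * ‖x - y‖) ^ α :=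
    Real.rpow_le_rpow (norm_nonneg _) (by linarith [norm_nonneg (x - y)]) h0.le
  calc ‖VV u x y z‖ ^ (1 - α) * ‖VV u x y z‖ ^ α ≤ (6 * ε) ^ (1 - α) * (6 * ‖x - y‖) ^ α := by
        gcongr
    _ = 6 * ε ^ (1 - α) * ‖x - y‖ ^ α := by
        rw [Real.mul_rpow (by norm_num) hε.le, Real.mul_rpow (by norm_num) (norm_nonneg _)]
        have : (6 : ℝ) ^ (1 - α) * 6 ^ α = 6 := by
          rw [← Real.rpow_add (by norm_num)]; simp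
        calc _ = ((6 : ℝ) ^ (1 - α) * 6 ^ α) * ε ^ (1 - α) * ‖x - y‖ ^ α := by ring
          _ = _ := by rw [this]

end Pool.Agent.R231.SC
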