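import Pool.Agent.R231.SC.Defs

namespace Pool.Agent.R231.SC

open Set Filter Topology

variable {E : Type*} [NormedAddCommGroup E] [InnerProductSpace ℝ E] [FiniteDimensional ℝ E]

lemma rec_of_seq {G : Set E} (hG : IsOpen G) (hc : Convex ℝ G) {x0 : E} (hx0 : x0 ∈ G)
    (x : ℕ → E) (hx : ∀ k, x k ∈ G) (ht : Tendsto (fun k => ‖x k‖) atTop atTop) :
    ∃ v : E, ‖v‖ = 1 ∧ (∀ y ∈ G, ∀ l : ℝ, 0 ≤ l → y + l • v ∈ G) ∧
      ∃ φ : ℕ → ℕ, StrictMono φ ∧
        Tendsto (fun k => (1 / ‖x (φ k)‖) • x (φ k)) atTop (𝓝 v) := by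
  have hb : ∀ k, (1 / ‖x k‖) • x k ∈ Metric.closedBall (0 : E) 1 := by
    intro k
    rw [mem_closedBall_zero_iff, norm_smul, Real.norm_eq_abs, abs_of_nonneg (by positivity)]
    rcases eq_or_ne ‖x k‖ 0 with h | h
    · rw [h]; norm_num
    · rw [one_div, inv_mul_cancel₀ h]
  obtain ⟨v, -, φ, hφ, hv⟩ := (isCompact_closedBall (0 : E) 1).tendsto_subseq hb
  have ht' : Tendsto (fun k => ‖x (φ k)‖) atTop atTop := ht.comp hφ.tendsto_atTop
  have hv1 : ‖v‖ = 1 := by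
    have h1 : Tendsto (fun k => ‖(1 / ‖x (φ k)‖) • x (φ k)‖) atTop (𝓝 ‖v‖) := hv.norm
    have h2 : Tendsto (fun k => ‖(1 / ‖x (φ k)‖) • x (φ k)‖) atTop (𝓝 1) := by
      refine tendsto_const_nhds.congr' ?_
      filter_upwards [ht'.eventually_gt_atTop 0] with k hk
      rw [norm_smul, Real.norm_eq_abs, abs_of_nonneg (by positivity), one_div,
        inv_mul_cancel₀ hk.ne']
    exact tendsto_nhds_unique h1 h2
  have hcl : ∀ l : ℝ, 0 ≤ l → ∀ y ∈ G, y + l • v ∈ closure G := by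
    intro l hl y hy
    have hlk : Tendsto (fun k => l / ‖x (φ k)‖) atTop (𝓝 0) :=
      Tendsto.const_div_atTop ht' l
    have h1 : Tendsto (fun k => (1 - l / ‖x (φ k)‖) • y + (l / ‖x (φ k)‖) • x (φ k)) atTop
        (𝓝 ((1 - 0 : ℝ) • y + l • v)) := by
      refine Tendsto.add ((tendsto_const_nhds.sub hlk).smul tendsto_const_nhds) ?_
      have h2 : Tendsto (fun k => l • ((1 / ‖x (φ k)‖) • x (φ k))) atTop (𝓝 (l • v)) :=
        hv.const_smul l
      refine h2.congr ?_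
      intro k
      rw [smul_smul, mul_one_div]
    rw [sub_zero, one_smul] at h1
    refine mem_closure_of_tendsto h1 ?_
    filter_upwards [ht'.eventually_gt_atTop l, ht'.eventually_gt_atTop 0] with k hk hk0
    refine hc hy (hx _) ?_ (by positivity) (by ring)
    have : l / ‖x (φ k)‖ ≤ 1 := by rw [div_le_one hk0]; exact hk.le
    linarith
  refine ⟨v, hv1, ?_, φ, hφ, hv⟩
  intro y hy l hl
  have hopen : IsOpen ((fun z => z + l • v) '' G) := (isOpenMap_add_right (l • v)) G hG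
  have hsub : (fun z => z + l • v) '' G ⊆ closure G := by
    rintro _ ⟨z, hz, rfl⟩
    exact hcl l hl z hz
  have hint : (fun z => z + l • v) '' G ⊆ interior (closure G) := interior_maximal hsub hopen
  have hne : (interior G).Nonempty := by rw [hG.interior_eq]; exact ⟨x0, hx0⟩
  rw [hc.interior_closure_eq_interior_of_nonempty_interior hne, hG.interior_eq] at hint
  exact hint ⟨y, hy, rfl⟩

lemma exists_u {G : Set E} {x0 : E} (hx0 : x0 ∈ G) (hcf : ConeFree G) :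
    ∃ u : E, ‖u‖ = 1 ∧ ∀ v : E, (∀ y ∈ G, ∀ l : ℝ, 0 ≤ l → y + l • v ∈ G) → inner ℝ u v = 0 := by
  set C : Set E := {v : E | ∀ y ∈ G, ∀ l : ℝ, 0 ≤ l → y + l • v ∈ G} with hC
  have h0 : (0 : E) ∈ C := by
    intro y hy l _
    simpa using hy
  have hCc : Convex ℝ C := by
    intro v hv w hw a b ha hb hab y hy l hl
    have h1 := hv y hy (l * a) (by positivity)
    have h2 := hw _ h1 (l * b) (by positivity)
    have : y + l • (a • v + b • w) = y + (l * a) • v + (l * b) • w := by module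
    rw [this]; exact h2
  have hCcone : ∀ v ∈ C, ∀ l : ℝ, 0 < l → l • v ∈ C := by
    intro v hv l hl y hy m hm
    rw [smul_smul]
    exact hv y hy (m * l) (by positivity)
  have hint : ¬ (interior C).Nonempty := by
    intro h
    refine hcf ⟨x0, C, hCcone, hCc, h, ?_⟩
    intro c hc
    have := hc x0 hx0 1 zero_le_one
    simpa using this
  have hspan : Submodule.span ℝ C ≠ ⊤ := by
    intro h
    apply hint
    rw [hCc.interior_nonempty_iff_affineSpan_eq_top,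
      AffineSubspace.affineSpan_eq_top_iff_vectorSpan_eq_top_of_nonempty ℝ E E ⟨0, h0⟩,
      vectorSpan_eq_span_vsub_set_right ℝ h0]
    simpa using h
  have horth : (Submodule.span ℝ C)ᗮ ≠ ⊥ := by
    intro h
    exact hspan ((Submodule.orthogonal_eq_bot_iff).1 h)
  obtain ⟨u0, hu0, hne⟩ := Submodule.exists_mem_ne_zero_of_ne_bot horth
  refine ⟨(‖u0‖⁻¹ : ℝ) • u0, ?_, ?_⟩
  · rw [norm_smul, norm_inv, norm_norm, inv_mul_cancel₀ (norm_ne_zero_iff.2 hne)]
  · intro v hv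
    have hvC : v ∈ C := fun y hy l hl => hv y hy l hl
    have h1 : inner ℝ u0 v = 0 :=
      Submodule.inner_left_of_mem_orthogonal (Submodule.subset_span hvC) hu0
    rw [real_inner_smul_left, h1, mul_zero]

lemma sublinear {G : Set E} (hG : IsOpen G) (hc : Convex ℝ G) {x0 : E} (hx0 : x0 ∈ G)
    {u : E} (hu : ‖u‖ = 1)
    (huv : ∀ v : E, (∀ y ∈ G, ∀ l : ℝ, 0 ≤ l → y + l • v ∈ G) → inner ℝ u v = 0)
    {ε : ℝ} (hε : 0 < ε) : ∃ M : ℝ, ∀ x ∈ G, |inner ℝ u x| ≤ ε * ‖x‖ + M := by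
  by_contra hcon
  push Not at hcon
  choose x hx hxk using fun k : ℕ => hcon (k : ℝ)
  have hle : ∀ k, |inner ℝ u (x k)| ≤ ‖x k‖ := by
    intro k
    have := abs_real_inner_le_norm u (x k)
    rwa [hu, one_mul] at this
  have ht : Tendsto (fun k => ‖x k‖) atTop atTop := by
    refine tendsto_atTop_mono (fun k => ?_) tendsto_natCast_atTop_atTop
    have h1 := hxk k
    have h2 := hle k
    have h3 : 0 ≤ ε * ‖x k‖ := by positivity
    linarith
  obtain ⟨v, hv1, hv, φ, hφ, hlim⟩ := rec_of_seq hG hc hx0 x hx ht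
  have h1 : Tendsto (fun k => |inner ℝ u ((1 / ‖x (φ k)‖) • x (φ k))|) atTop
      (𝓝 |inner ℝ u v|) := (tendsto_const_nhds.inner hlim).abs
  rw [huv v hv, abs_zero] at h1
  have h2 : ∀ᶠ k in atTop, ε ≤ |inner ℝ u ((1 / ‖x (φ k)‖) • x (φ k))| := by
    filter_upwards [(ht.comp hφ.tendsto_atTop).eventually_gt_atTop 0] with k hk
    have hk' : 0 < ‖x (φ k)‖ := hk
    rw [real_inner_smul_right, abs_mul, abs_of_nonneg (by positivity), div_mul_eq_mul_div, one_mul,
      le_div_iff₀ hk']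
    have h3 := hxk (φ k)
    have h4 : (0 : ℝ) ≤ (φ k : ℕ) := Nat.cast_nonneg _
    linarith
  have := ge_of_tendsto h1 h2
  linarith

lemma exists_e {G : Set E} (hG : IsOpen G) (hc : Convex ℝ G) {x0 : E} (hx0 : x0 ∈ G)
    (hb : ¬ Bornology.IsBounded G) :
    ∃ e : E, ‖e‖ = 1 ∧ ∀ y ∈ G, ∀ l : ℝ, 0 ≤ l → y + l • e ∈ G := by
  have h1 : ∀ k : ℕ, ∃ x ∈ G, (k : ℝ) < ‖x‖ := by
    intro k
    by_contra hcon
    push Not at hcon
    exact hb (isBounded_iff_forall_norm_le.2 ⟨k, hcon⟩)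
  choose x hx hxk using h1
  have ht : Tendsto (fun k => ‖x k‖) atTop atTop :=
    tendsto_atTop_mono (fun k => (hxk k).le) tendsto_natCast_atTop_atTop
  obtain ⟨v, hv1, hv, -⟩ := rec_of_seq hG hc hx0 x hx ht
  exact ⟨v, hv1, hv⟩

end Pool.Agent.R231.SC
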