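import Pool.Agent.R231.SC.Pos
import Pool.Agent.R231.SC.Rec

namespace Pool.Agent.R231.SC

open Set Filter Topology

variable {E : Type*} [NormedAddCommGroup E] [InnerProductSpace ℝ E]

/-- the rescaled function -/
noncomputable def FR (u x0 : E) (α R : ℝ) (x : E) : ℝ := R ^ (1 + α) * F1 u (R⁻¹ • (x - x0))

lemma FR_bound (u x0 : E) (hu : ‖u‖ = 1) {α R : ℝ} (h1 : α < 1) (hR : 1 ≤ R) (x : E) :
    |FR u x0 α R x| ≤ R⁻¹ * ‖x - x0‖ ^ 3 := by
  have hR0 : 0 < R := by linarith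
  unfold FR F1
  set y := x - x0
  have hn : ‖R⁻¹ • y‖ = R⁻¹ * ‖y‖ := by
    rw [norm_smul, Real.norm_eq_abs, abs_of_pos (by positivity)]
  have a1 : |inner ℝ u (R⁻¹ • y)| ≤ R⁻¹ * ‖y‖ := by
    have := abs_real_inner_le_norm u (R⁻¹ • y)
    rwa [hu, one_mul, hn] at this
  have a2 : ‖R⁻¹ • y‖ ^ 2 / (1 + ‖R⁻¹ • y‖ ^ 2) ≤ (R⁻¹ * ‖y‖) ^ 2 := by
    rw [hn]
    exact div_le_self (by positivity) (by nlinarith [sq_nonneg (R⁻¹ * ‖y‖)])
  have a3 : (0 : ℝ) ≤ ‖R⁻¹ • y‖ ^ 2 / (1 + ‖R⁻¹ • y‖ ^ 2) := by positivity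
  rw [abs_mul, abs_mul, abs_of_nonneg a3, abs_of_pos (by positivity)]
  calc R ^ (1 + α) * (|inner ℝ u (R⁻¹ • y)| * (‖R⁻¹ • y‖ ^ 2 / (1 + ‖R⁻¹ • y‖ ^ 2)))
      ≤ R ^ (1 + α) * ((R⁻¹ * ‖y‖) * (R⁻¹ * ‖y‖) ^ 2) := by gcongr
    _ ≤ R ^ (2 : ℝ) * ((R⁻¹ * ‖y‖) * (R⁻¹ * ‖y‖) ^ 2) := by
        have : R ^ (1 + α) ≤ R ^ (2 : ℝ) :=
          Real.rpow_le_rpow_of_exponent_le hR (by linarith)
        gcongr
    _ = R⁻¹ * ‖y‖ ^ 3 := by
        rw [Real.rpow_two]
        field_simp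

lemma DD_FR (u x0 x y : E) (α R l : ℝ) :
    DD (FR u x0 α R) x y l = R ^ (1 + α) * DD (F1 u) (R⁻¹ • (x - x0)) (R⁻¹ • (y - x0)) l := by
  unfold DD FR
  have : R⁻¹ • (l • x + (1 - l) • y - x0) = l • (R⁻¹ • (x - x0)) + (1 - l) • (R⁻¹ • (y - x0)) := by
    module
  rw [this]; ring

lemma DD_FR_le (u x0 x y : E) (hu : ‖u‖ = 1) {ε : ℝ} (hε : 0 < ε) {α : ℝ} (h0 : 0 < α)
    (h1 : α < 1) {R : ℝ} (hR : 0 < R)
    (hx : |inner ℝ u (x - x0)| ≤ ε * (R + ‖x - x0‖))
    (hy : |inner ℝ u (y - x0)| ≤ ε * (R + ‖y - x0‖)) {l : ℝ} (hl : l ∈ Icc (0 : ℝ) 1) :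
    |DD (FR u x0 α R) x y l| ≤ 6 * ε ^ (1 - α) * (l * (1 - l) * ‖x - y‖ * ‖x - y‖ ^ α) := by
  have hR' : 0 < R⁻¹ := by positivity
  have sc : ∀ z : E, |inner ℝ u z| ≤ ε * (R + ‖z‖) → |inner ℝ u (R⁻¹ • z)| ≤ ε * (1 + ‖R⁻¹ • z‖) := by
    intro z hz
    rw [real_inner_smul_right, abs_mul, abs_of_pos hR', norm_smul, Real.norm_eq_abs,
      abs_of_pos hR']
    calc R⁻¹ * |inner ℝ u z| ≤ R⁻¹ * (ε * (R + ‖z‖)) := by gcongr
      _ = _ := by field_simp
  have h := DD_F1 u (R⁻¹ • (x - x0)) (R⁻¹ • (y - x0)) hu ε hε h0 h1 (sc _ hx) (sc _ hy) hl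
  have hn : ‖R⁻¹ • (x - x0) - R⁻¹ • (y - x0)‖ = R⁻¹ * ‖x - y‖ := by
    rw [← smul_sub, norm_smul, Real.norm_eq_abs, abs_of_pos hR']
    congr 2; abel
  rw [hn, Real.mul_rpow hR'.le (norm_nonneg _)] at h
  rw [DD_FR, abs_mul, abs_of_pos (by positivity)]
  calc R ^ (1 + α) * |DD (F1 u) (R⁻¹ • (x - x0)) (R⁻¹ • (y - x0)) l|
      ≤ R ^ (1 + α) * (l * (1 - l) * (R⁻¹ * ‖x - y‖) * (6 * ε ^ (1 - α) * (R⁻¹ ^ α * ‖x - y‖ ^ α))) := by
        gcongr
    _ = (R ^ (1 + α) * (R⁻¹ * R⁻¹ ^ α)) * (6 * ε ^ (1 - α) * (l * (1 - l) * ‖x - y‖ * ‖x - y‖ ^ α)) := by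
        ring
    _ = _ := by
        have : R ^ (1 + α) * (R⁻¹ * R⁻¹ ^ α) = 1 := by
          rw [Real.rpow_add hR, Real.rpow_one, Real.inv_rpow hR.le]
          have : 0 < R ^ α := by positivity
          field_simp
        rw [this, one_mul]

/-- four-point difference of the rescaled function -/
lemma FR_four (u x0 e : E) (hu : ‖u‖ = 1) (he : ‖e‖ = 1) (hue : inner ℝ u e = 0) {α R lam η : ℝ}
    (hR : 0 < R) :
    FR u x0 α R (x0 + lam • e + η • u) - FR u x0 α R (x0 + lam • e)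
      - (FR u x0 α R (x0 + η • u) - FR u x0 α R x0) =
    R ^ α * η * ((lam ^ 2 + η ^ 2) / (R ^ 2 + (lam ^ 2 + η ^ 2)) - η ^ 2 / (R ^ 2 + η ^ 2)) := by
  have huu : inner ℝ u u = 1 := by rw [real_inner_self_eq_norm_sq, hu]; norm_num
  have hR' : 0 < R⁻¹ := by positivity
  have e1 : x0 + lam • e + η • u - x0 = lam • e + η • u := by abel
  have e2 : x0 + lam • e - x0 = lam • e := by abel
  have e3 : x0 + η • u - x0 = η • u := by abel
  have n1 : ‖lam • e + η • u‖ ^ 2 = lam ^ 2 + η ^ 2 := by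
    rw [norm_add_sq_real, norm_smul, norm_smul, he, hu, real_inner_smul_left,
      real_inner_smul_right, real_inner_comm, hue, Real.norm_eq_abs, Real.norm_eq_abs]
    simp [sq_abs]
  have n3 : ‖η • u‖ ^ 2 = η ^ 2 := by
    rw [norm_smul, hu, Real.norm_eq_abs]; simp [sq_abs]
  have nR : ∀ z : E, ‖R⁻¹ • z‖ ^ 2 / (1 + ‖R⁻¹ • z‖ ^ 2) = ‖z‖ ^ 2 / (R ^ 2 + ‖z‖ ^ 2) := by
    intro z
    rw [norm_smul, Real.norm_eq_abs, abs_of_pos hR']
    have : 0 < R ^ 2 + ‖z‖ ^ 2 := by positivity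
    field_simp
  have hF : ∀ z : E, F1 u (R⁻¹ • z) = R⁻¹ * inner ℝ u z * (‖z‖ ^ 2 / (R ^ 2 + ‖z‖ ^ 2)) := by
    intro z
    unfold F1
    rw [nR, real_inner_smul_right]
  have hp : R ^ (1 + α) * R⁻¹ = R ^ α := by
    rw [Real.rpow_add hR, Real.rpow_one]; field_simp
  unfold FR
  rw [e1, e2, e3, hF, hF, hF, hF, n1, n3, inner_add_right, real_inner_smul_right,
    real_inner_smul_right, hue, huu, sub_self, inner_zero_right, ← hp]
  ring

variable [FiniteDimensional ℝ E]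

theorem pos_main {G : Set E} (hG : IsOpen G) (hc : Convex ℝ G) (hb : ¬ Bornology.IsBounded G)
    (hcf : ConeFree G) {α : ℝ} (h0 : 0 < α) (h1 : α < 1) :
    ∃ f : E → ℝ, Semiconvex G (fun t => t ^ α) f ∧ Semiconcave G (fun t => t ^ α) f ∧
      ¬ InC1 G (fun t => t ^ α) f := by
  obtain ⟨x0, hx0⟩ : G.Nonempty := by
    rw [Set.nonempty_iff_ne_empty]
    rintro rfl
    exact hb Bornology.isBounded_empty
  obtain ⟨u, hu, huv⟩ := exists_u hx0 hcf
  obtain ⟨e, he, her⟩ := exists_e hG hc hx0 hb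
  have hue : inner ℝ u e = 0 := huv e her
  -- the scales
  have hscale : ∀ k : ℕ, ∃ ε : ℝ, 0 < ε ∧ 6 * ε ^ (1 - α) ≤ (1 / 4) ^ (k + 1) ∧ ∃ R : ℝ,
      4 ^ (k + 1) ≤ R ∧ ∀ x ∈ G, |inner ℝ u (x - x0)| ≤ ε * (R + ‖x - x0‖) := by
    intro k
    have h1α : 0 < 1 - α := by linarith
    refine ⟨((1 / 4) ^ (k + 1) / 6) ^ (1 / (1 - α)), by positivity, ?_, ?_⟩
    · rw [← Real.rpow_mul (by positivity), one_div_mul_cancel h1α.ne', Real.rpow_one]
      linarith [show (0:ℝ) < (1 / 4) ^ (k + 1) by positivity]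
    · set ε : ℝ := ((1 / 4) ^ (k + 1) / 6) ^ (1 / (1 - α)) with hε
      have hεp : 0 < ε := by positivity
      obtain ⟨M, hM⟩ := sublinear hG hc hx0 hu huv hεp
      refine ⟨max (4 ^ (k + 1)) ((M + ε * ‖x0‖ + ‖x0‖) / ε), le_max_left _ _, ?_⟩
      intro x hx
      have a1 := hM x hx
      have a2 : |inner ℝ u (x - x0)| ≤ |inner ℝ u x| + ‖x0‖ := by
        rw [inner_sub_right]
        have := abs_real_inner_le_norm u x0
        rw [hu, one_mul] at this
        have h3 := abs_sub (inner ℝ u x) (inner ℝ u x0)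
        linarith
      have a3 : ‖x‖ ≤ ‖x - x0‖ + ‖x0‖ := by
        have := norm_add_le (x - x0) x0
        rwa [sub_add_cancel] at this
      have a4 : (M + ε * ‖x0‖ + ‖x0‖) ≤ ε * max (4 ^ (k + 1)) ((M + ε * ‖x0‖ + ‖x0‖) / ε) := by
        have := le_max_right (4 ^ (k + 1)) ((M + ε * ‖x0‖ + ‖x0‖) / ε)
        rwa [div_le_iff₀' hεp] at this
      nlinarith [mul_le_mul_of_nonneg_left a3 hεp.le]
  choose ε hε hε2 R hR hRx using hscale
  have hR1 : ∀ k, 1 ≤ R k := fun k => le_trans (one_le_pow₀ (by norm_num)) (hR k)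
  have hR0 : ∀ k, 0 < R k := fun k => by linarith [hR1 k]
  set F : ℕ → E → ℝ := fun k x => 2 ^ k * FR u x0 α (R k) x with hF
  have hFb : ∀ k x, ‖F k x‖ ≤ (1 / 2) ^ k * ‖x - x0‖ ^ 3 := by
    intro k x
    rw [hF]
    simp only
    rw [norm_mul, Real.norm_eq_abs, Real.norm_eq_abs, abs_of_pos (by positivity)]
    have b1 := FR_bound u x0 hu h1 (hR1 k) x
    have b2 : (R k)⁻¹ ≤ (1 / 4) ^ k := by
      have h3 : (4 : ℝ) ^ k ≤ R k := le_trans (pow_le_pow_right₀ (by norm_num) (by omega)) (hR k)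
      rw [one_div, inv_pow]
      exact inv_anti₀ (by positivity) h3
    calc (2 : ℝ) ^ k * |FR u x0 α (R k) x| ≤ 2 ^ k * ((R k)⁻¹ * ‖x - x0‖ ^ 3) := by gcongr
      _ ≤ 2 ^ k * ((1 / 4) ^ k * ‖x - x0‖ ^ 3) := by gcongr
      _ = (2 * (1 / 4)) ^ k * ‖x - x0‖ ^ 3 := by rw [mul_pow]; ring
      _ = _ := by norm_num
  have hsumg : ∀ c : ℝ, Summable (fun k : ℕ => (1 / 2 : ℝ) ^ k * c) := fun c =>
    (summable_geometric_of_lt_one (by norm_num) (by norm_num)).mul_right c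
  have hFs : ∀ x, Summable (fun k => F k x) := fun x =>
    Summable.of_norm_bounded (hsumg _) (fun k => hFb k x)
  set f : E → ℝ := fun x => ∑' k, F k x with hf
  -- continuity
  have hFc : ∀ k, Continuous (F k) := by
    intro k
    rw [hF]
    simp only
    unfold FR F1
    have hc1 : Continuous fun x : E => (R k)⁻¹ • (x - x0) := by fun_prop
    refine continuous_const.mul (continuous_const.mul ((continuous_const.inner hc1).mul ?_))
    refine Continuous.div (hc1.norm.pow 2) (continuous_const.add (hc1.norm.pow 2)) ?_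
    intro x; positivity
  have hfc : Continuous f := by
    rw [continuous_iff_continuousAt]
    intro x
    have hcon : ContinuousOn f (Metric.ball x0 (‖x - x0‖ + 1)) := by
      refine continuousOn_tsum (fun k => (hFc k).continuousOn) (hsumg ((‖x - x0‖ + 1) ^ 3)) ?_
      intro k y hy
      refine (hFb k y).trans ?_
      rw [Metric.mem_ball, dist_eq_norm] at hy
      gcongr
    refine hcon.continuousAt (Metric.isOpen_ball.mem_nhds ?_)
    rw [Metric.mem_ball, dist_eq_norm]; linarith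
  -- the D functional
  have hD : ∀ x ∈ G, ∀ y ∈ G, ∀ l ∈ Icc (0 : ℝ) 1,
      |DD f x y l| ≤ l * (1 - l) * ‖x - y‖ * ‖x - y‖ ^ α := by
    intro x hx y hy l hl
    have hl1 : 0 ≤ l * (1 - l) := mul_nonneg hl.1 (by linarith [hl.2])
    have hs : HasSum (fun k => DD (F k) x y l) (DD f x y l) := by
      unfold DD
      exact (((hFs x).hasSum.mul_left l).add ((hFs y).hasSum.mul_left (1 - l))).sub
        (hFs (l • x + (1 - l) • y)).hasSum
    have hb2 : ∀ k, ‖DD (F k) x y l‖ ≤ (1 / 2) ^ k * (1 / 4 * (l * (1 - l) * ‖x - y‖ * ‖x - y‖ ^ α)) := by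
      intro k
      have h3 := DD_FR_le u x0 x y hu (hε k) h0 h1 (hR0 k) (hRx k x hx) (hRx k y hy) hl
      have h4 : DD (F k) x y l = 2 ^ k * DD (FR u x0 α (R k)) x y l := by
        unfold DD; rw [hF]; ring
      rw [h4, norm_mul, Real.norm_eq_abs, Real.norm_eq_abs, abs_of_pos (by positivity)]
      have hnn : 0 ≤ l * (1 - l) * ‖x - y‖ * ‖x - y‖ ^ α := by positivity
      calc (2 : ℝ) ^ k * |DD (FR u x0 α (R k)) x y l|
          ≤ 2 ^ k * (6 * ε k ^ (1 - α) * (l * (1 - l) * ‖x - y‖ * ‖x - y‖ ^ α)) := by gcongr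
        _ ≤ 2 ^ k * ((1 / 4) ^ (k + 1) * (l * (1 - l) * ‖x - y‖ * ‖x - y‖ ^ α)) := by
            have := hε2 k
            gcongr
        _ = (2 * (1 / 4)) ^ k * (1 / 4 * (l * (1 - l) * ‖x - y‖ * ‖x - y‖ ^ α)) := by
            rw [mul_pow, pow_succ]; ring
        _ = _ := by norm_num
    have h5 : ‖∑' k, DD (F k) x y l‖ ≤ 2 * (1 / 4 * (l * (1 - l) * ‖x - y‖ * ‖x - y‖ ^ α)) := by
      refine tsum_of_norm_bounded ?_ hb2
      exact hasSum_geometric_two.mul_right _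
    rw [hs.tsum_eq, Real.norm_eq_abs] at h5
    have hnn : 0 ≤ l * (1 - l) * ‖x - y‖ * ‖x - y‖ ^ α := by positivity
    linarith
  refine ⟨f, ⟨hfc.continuousOn, ?_⟩, ⟨hfc.neg.continuousOn, ?_⟩, ?_⟩
  · intro x hx y hy l hl
    have := (abs_le.1 (hD x hx y hy l hl)).1
    unfold DD at this
    linarith
  · intro x hx y hy l hl
    have := (abs_le.1 (hD x hx y hy l hl)).2
    unfold DD at this
    linarith
  · rintro ⟨K, hK, f', hf', hf'2⟩
    -- a small eta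
    obtain ⟨η0, hη0, hball⟩ := Metric.isOpen_iff.1 hG x0 hx0
    set η : ℝ := min (η0 / 2) 1 with hη
    have hηp : 0 < η := by positivity
    have hη1 : η ≤ 1 := min_le_right _ _
    have hηs : ∀ s ∈ Icc (0 : ℝ) 1, x0 + (s * η) • u ∈ G := by
      intro s hs
      apply hball
      rw [Metric.mem_ball, dist_eq_norm, add_sub_cancel_left, norm_smul, hu, mul_one,
        Real.norm_eq_abs, abs_of_nonneg (mul_nonneg hs.1 hηp.le)]
      have : η ≤ η0 / 2 := min_le_left _ _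
      nlinarith [hs.1, hs.2]
    have hbound : ∀ lam : ℝ, 0 < lam →
        |(f (x0 + lam • e + η • u) - f (x0 + η • u)) - (f (x0 + lam • e) - f x0)| ≤
          K * lam ^ α * η := by
      intro lam hlam
      set ψ : ℝ → ℝ := fun s => f (x0 + (s * η) • u + lam • e) - f (x0 + (s * η) • u) with hψ
      have hmem : ∀ s ∈ Icc (0 : ℝ) 1, x0 + (s * η) • u + lam • e ∈ G := fun s hs =>
        her _ (hηs s hs) lam hlam.le
      have hder : ∀ s ∈ Icc (0 : ℝ) 1, HasDerivWithinAt ψ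
          ((f' (x0 + (s * η) • u + lam • e) - f' (x0 + (s * η) • u)) (η • u)) (Icc 0 1) s := by
        intro s hs
        have d1 : HasDerivAt (fun s : ℝ => x0 + (s * η) • u + lam • e) (η • u) s := by
          have h3 : HasDerivAt (fun s : ℝ => (s * η) • u) ((1 * η) • u) s :=
            ((hasDerivAt_id s).mul_const η).smul_const u
          rw [one_mul] at h3
          exact ((h3.const_add x0).add_const _)
        have d2 : HasDerivAt (fun s : ℝ => x0 + (s * η) • u) (η • u) s := by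
          have h3 : HasDerivAt (fun s : ℝ => (s * η) • u) ((1 * η) • u) s :=
            ((hasDerivAt_id s).mul_const η).smul_const u
          rw [one_mul] at h3
          exact (h3.const_add x0)
        have d3 := (hf' _ (hmem s hs)).comp_hasDerivAt s d1
        have d4 := (hf' _ (hηs s hs)).comp_hasDerivAt s d2
        exact (d3.sub d4).hasDerivWithinAt
      have hnb : ∀ s ∈ Ico (0 : ℝ) 1,
          ‖(f' (x0 + (s * η) • u + lam • e) - f' (x0 + (s * η) • u)) (η • u)‖ ≤ K * lam ^ α * η := by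
        intro s hs
        have hs' : s ∈ Icc (0 : ℝ) 1 := ⟨hs.1, hs.2.le⟩
        have h3 := hf'2 _ (hmem s hs') _ (hηs s hs')
        rw [add_sub_cancel_left, norm_smul, he, mul_one, Real.norm_eq_abs, abs_of_pos hlam] at h3
        refine (ContinuousLinearMap.le_opNorm _ _).trans ?_
        rw [norm_smul, hu, mul_one, Real.norm_eq_abs, abs_of_pos hηp]
        gcongr
      have h6 := norm_image_sub_le_of_norm_deriv_le_segment_01' hder hnb
      rw [hψ] at h6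
      simp only [one_mul, zero_mul, zero_smul, add_zero] at h6
      rw [Real.norm_eq_abs] at h6
      have e7 : x0 + lam • e + η • u = x0 + η • u + lam • e := by abel
      rw [e7]; exact h6
    have hlow : ∀ j : ℕ, 2 ^ j * (R j) ^ α * η * (1 / 4) ≤
        (f (x0 + (R j) • e + η • u) - f (x0 + η • u)) - (f (x0 + (R j) • e) - f x0) := by
      intro j
      have hs : HasSum (fun k => (F k (x0 + (R j) • e + η • u) - F k (x0 + η • u)) -
          (F k (x0 + (R j) • e) - F k x0))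
          ((f (x0 + (R j) • e + η • u) - f (x0 + η • u)) - (f (x0 + (R j) • e) - f x0)) :=
        ((hFs _).hasSum.sub (hFs _).hasSum).sub ((hFs _).hasSum.sub (hFs _).hasSum)
      have hval : ∀ k, (F k (x0 + (R j) • e + η • u) - F k (x0 + η • u)) -
          (F k (x0 + (R j) • e) - F k x0) = 2 ^ k * ((R k) ^ α * η *
            (((R j) ^ 2 + η ^ 2) / ((R k) ^ 2 + ((R j) ^ 2 + η ^ 2)) - η ^ 2 / ((R k) ^ 2 + η ^ 2))) := by
        intro k
        rw [← FR_four u x0 e hu he hue (hR0 k)]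
        rw [hF]; ring
      have hnn : ∀ k, 0 ≤ (F k (x0 + (R j) • e + η • u) - F k (x0 + η • u)) -
          (F k (x0 + (R j) • e) - F k x0) := by
        intro k
        rw [hval]
        have hk := hR0 k
        have hj := hR0 j
        have h8 : η ^ 2 / ((R k) ^ 2 + η ^ 2) ≤ ((R j) ^ 2 + η ^ 2) / ((R k) ^ 2 + ((R j) ^ 2 + η ^ 2)) := by
          rw [div_le_div_iff₀ (by positivity) (by positivity)]
          nlinarith [mul_nonneg (sq_nonneg (R k)) (sq_nonneg (R j))]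
        have : 0 ≤ ((R j) ^ 2 + η ^ 2) / ((R k) ^ 2 + ((R j) ^ 2 + η ^ 2)) - η ^ 2 / ((R k) ^ 2 + η ^ 2) := by
          linarith
        positivity
      have h9 := hs.summable.le_tsum j (fun k _ => hnn k)
      rw [hs.tsum_eq] at h9
      refine le_trans ?_ h9
      rw [hval]
      have hj := hR0 j
      have hj4 : 4 ≤ R j := by
        have : (4 : ℝ) ^ 1 ≤ 4 ^ (j + 1) := pow_le_pow_right₀ (by norm_num) (by omega)
        linarith [hR j]
      have h10 : (1 : ℝ) / 4 ≤ ((R j) ^ 2 + η ^ 2) / ((R j) ^ 2 + ((R j) ^ 2 + η ^ 2)) - η ^ 2 / ((R j) ^ 2 + η ^ 2) := by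
        have h11 : (1 : ℝ) / 2 ≤ ((R j) ^ 2 + η ^ 2) / ((R j) ^ 2 + ((R j) ^ 2 + η ^ 2)) := by
          rw [div_le_div_iff₀ (by norm_num) (by positivity)]
          nlinarith [sq_nonneg η]
        have h12 : η ^ 2 / ((R j) ^ 2 + η ^ 2) ≤ 1 / 4 := by
          rw [div_le_div_iff₀ (by positivity) (by norm_num)]
          nlinarith
        linarith
      calc 2 ^ j * (R j) ^ α * η * (1 / 4) = 2 ^ j * ((R j) ^ α * η * (1 / 4)) := by ring
        _ ≤ _ := by gcongr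
    have hfin : ∀ j : ℕ, (2 : ℝ) ^ j ≤ 4 * K := by
      intro j
      have h13 := (hlow j).trans ((le_abs_self _).trans (hbound (R j) (hR0 j)))
      have hp : 0 < (R j) ^ α * η := mul_pos (Real.rpow_pos_of_pos (hR0 j) _) hηp
      have h14 : 2 ^ j * (1 / 4) * ((R j) ^ α * η) ≤ K * ((R j) ^ α * η) := by
        calc _ = 2 ^ j * (R j) ^ α * η * (1 / 4) := by ring
          _ ≤ _ := h13
          _ = _ := by ring
      have := le_of_mul_le_mul_right h14 hp
      linarith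
    obtain ⟨j, hj⟩ := pow_unbounded_of_one_lt (4 * K) (by norm_num : (1 : ℝ) < 2)
    linarith [hfin j]

end Pool.Agent.R231.SC
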